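import Pool.Agent.K4H99.PathLike.Snake
import Pool.Agent.H685R2.VST.Base

/-!
# The algorithm: definitions and soundness
-/

namespace Pool.Agent.K4H99.PathLike

open Pool.Agent.H685R2.VST

/-- the adjacency relation after the deletion of the edge joining `u` and `v` -/
def del (A : ℕ → ℕ → Bool) (u v x y : ℕ) : Bool :=
  A x y && !(decide (x = u) && decide (y = v)) && !(decide (x = v) && decide (y = u))

/-- the vertices which are reachable from `v` without using the edge joining `u` and `v` -/
def cmp (n : ℕ) (A : ℕ → ℕ → Bool) (u v : ℕ) : List ℕ := reachL (del A u v) (List.range n) v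

/-- the neighbour of `x` in the direction of `q` -/
def nx (n : ℕ) (A : ℕ → ℕ → Bool) (q x : ℕ) : ℕ :=
  (((List.range n).filter (fun y => A x y && decide (q ∈ cmp n A x y))).head?).getD x

/-- the `i`-th vertex on the way from `p` to `q` -/
def rw (n : ℕ) (A : ℕ → ℕ → Bool) (q p i : ℕ) : ℕ := (nx n A q)^[min i n] p

/-- the vertices `rw 0, …, rw l` form a path, and `rw a` is `v` -/
def RowOK (n : ℕ) (A : ℕ → ℕ → Bool) (q l v p a : ℕ) : Prop :=
  a ≤ l ∧ rw n A q p a = v ∧ (∀ i < n, i < l → A (rw n A q p i) (rw n A q p (i + 1)) = true) ∧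
    ∀ i < n, ∀ j < n, i ≤ l → j ≤ l → rw n A q p i = rw n A q p j → i = j

/-- One row is split off the set `S` of vertices. -/
def Step (n : ℕ) (A : ℕ → ℕ → Bool) (Q : ℕ → ℕ → ℕ → ℕ → Prop) (S : List ℕ) (v p a : ℕ) : Prop :=
  ∃ q < n, ∃ l < n, RowOK n A q l v p a ∧
    ((∀ x < n, x ∈ S ↔ ∃ i < n, i ≤ l ∧ rw n A q p i = x) ∨
      ∃ b < n, ∃ v' < n, ∃ p' < n, 1 ≤ b ∧ b ≤ l ∧ A (rw n A q p (l - b)) v' = true ∧
        (∀ x < n, x ∈ S ↔ x ∈ cmp n A (rw n A q p (l - b)) v' ∨
          ∃ i < n, i ≤ l ∧ rw n A q p i = x) ∧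
        (∀ i < n, i ≤ l → rw n A q p i ∉ cmp n A (rw n A q p (l - b)) v') ∧
        Q (rw n A q p (l - b)) v' p' b)

/-- `S` can be split in at most `m` rows, the first of them starting at `p` and having
its `a`-th vertex at `v`. -/
def Good (n : ℕ) (A : ℕ → ℕ → Bool) : ℕ → List ℕ → ℕ → ℕ → ℕ → Prop
  | 0 => fun _ _ _ _ => False
  | m + 1 => fun S v p a => Step n A (fun u v p a => Good n A m (cmp n A u v) v p a) S v p a

/-- `A` is the adjacency relation of a graph with the vertices `0, …, n - 1` -/
structure IsAdj (n : ℕ) (A : ℕ → ℕ → Bool) : Prop where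
  symm : ∀ x y, A x y = true → A y x = true
  irrefl : ∀ x, A x x = false
  lt : ∀ x y, A x y = true → x < n

variable {n : ℕ} {A : ℕ → ℕ → Bool}

theorem IsAdj.lt' (hA : IsAdj n A) {x y : ℕ} (h : A x y = true) : y < n := hA.lt _ _ (hA.symm _ _ h)

theorem del_eq {u v x y : ℕ} : del A u v x y = true ↔
    A x y = true ∧ ¬ (x = u ∧ y = v) ∧ ¬ (x = v ∧ y = u) := by
  simp only [del, Bool.and_eq_true, Bool.not_eq_true', Bool.and_eq_false_iff,
    decide_eq_false_iff_not]
  tauto

theorem del_symm (hA : IsAdj n A) (u v : ℕ) : ∀ x y, del A u v x y = true → del A u v y x = true := by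
  intro x y h
  rw [del_eq] at h ⊢
  exact ⟨hA.symm _ _ h.1, fun h' => h.2.2 ⟨h'.2, h'.1⟩, fun h' => h.2.1 ⟨h'.2, h'.1⟩⟩

/-- reachability inside `0, …, n - 1` -/
abbrev Rr (n : ℕ) (B : ℕ → ℕ → Bool) : ℕ → ℕ → Prop :=
  Rs (fun a b => B a b = true) (· ∈ List.range n)

theorem mem_cmp (hA : IsAdj n A) {u v x : ℕ} :
    x ∈ cmp n A u v ↔ v < n ∧ x < n ∧ Rr n (del A u v) v x := by
  unfold cmp
  rw [mem_reachL (del_symm hA u v), List.mem_range, List.mem_range]

theorem lt_of_mem_cmp (hA : IsAdj n A) {u v x : ℕ} (h : x ∈ cmp n A u v) : x < n :=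
  ((mem_cmp hA).1 h).2.1

theorem nx_lt {q x : ℕ} (hx : x < n) : nx n A q x < n := by
  unfold nx
  rcases h : ((List.range n).filter (fun y => A x y && decide (q ∈ cmp n A x y))).head? with _ | y
  · simpa using hx
  · simp only [Option.getD_some]
    have := List.mem_of_mem_head? (Option.mem_def.2 h)
    simp only [List.mem_filter, List.mem_range] at this
    exact this.1

theorem rw_lt {q p : ℕ} (hp : p < n) (i : ℕ) : rw n A q p i < n := by
  have key : ∀ i, (nx n A q)^[i] p < n := by
    intro i
    induction i with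
    | zero => exact hp
    | succ i ih =>
      rw [Function.iterate_succ', Function.comp_apply]
      exact nx_lt ih
  exact key _

theorem rw_zero {q p : ℕ} : rw n A q p 0 = p := by
  unfold rw
  rw [Nat.zero_min]
  rfl

theorem rw_succ {q p i : ℕ} (hi : i < n) : rw n A q p (i + 1) = nx n A q (rw n A q p i) := by
  unfold rw
  rw [min_eq_left (show i + 1 ≤ n from hi), min_eq_left hi.le, Function.iterate_succ',
    Function.comp_apply]

/-! ### Soundness -/

/-- The vertices in `S` can be arranged as the vertices of some `Gam N b`, the first row is long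
enough. -/
def Arr (A : ℕ → ℕ → Bool) (S : List ℕ) (v a : ℕ) (N : ℕ) (φ : ℕ → ℕ) (b : ℕ → ℕ) : Prop :=
  a < N ∧ (∀ i < N, φ i ∈ S) ∧ (∀ i < N, ∀ j < N, φ i = φ j → i = j) ∧
    (∀ x ∈ S, ∃ i < N, φ i = x) ∧ φ a = v ∧ Valid N b ∧
    (∀ j, j + 1 < N → A (φ (j - b j)) (φ (j + 1 + b j)) = true) ∧
    ∀ j, j + 1 < N → 0 < b j → a ≤ j

theorem sound (hA : IsAdj n A) : ∀ (m : ℕ) (S : List ℕ) (v p a : ℕ), (∀ x ∈ S, x < n) → p < n →
    Good n A m S v p a → ∃ N φ b, Arr A S v a N φ b
  | 0, _, _, _, _, _, _, h => h.elim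
  | m + 1, S, v, p, a, hS, hp, h => by
    obtain ⟨q, hq, l, hl, ⟨hal, hav, hadj, hinj⟩, h⟩ := h
    have hr : ∀ i, rw n A q p i < n := rw_lt hp
    rcases h with h | ⟨b, hb, v', hv', p', hp', hb1, hbl, huv, hSu, hdis, hrec⟩
    · refine ⟨l + 1, rw n A q p, fun _ => 0, by omega, ?_, ?_, ?_, hav, ⟨?_, ?_⟩, ?_, ?_⟩
      · exact fun i hi => (h _ (hr i)).2 ⟨i, by omega, by omega, rfl⟩
      · exact fun i hi j hj => hinj i (by omega) j (by omega) (by omega) (by omega)
      · intro x hx
        obtain ⟨i, _, hi, h'⟩ := (h x (hS x hx)).1 hx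
        exact ⟨i, by omega, h'⟩
      · intro j hj
        dsimp only
        omega
      · intro i j _ _ h1
        dsimp only at h1
        omega
      · intro j hj
        exact hadj j (by omega) (by omega)
      · intro j hj h1
        dsimp only at h1
        omega
    · obtain ⟨N', φ', b', haN, hmem, hinj', hsurj, hav', ⟨hval1, hval2⟩, hadj', hfirst⟩ :=
        sound hA m _ v' p' b (fun x hx => lt_of_mem_cmp hA hx) hp' hrec
      have hφ1 : ∀ i, i ≤ l → (fun i => if i ≤ l then rw n A q p i else φ' (i - (l + 1))) i =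
          rw n A q p i := fun i hi => if_pos hi
      have hφ2 : ∀ i, (fun i => if i ≤ l then rw n A q p i else φ' (i - (l + 1))) (l + 1 + i) =
          φ' i := fun i => by
        change (if l + 1 + i ≤ l then _ else _) = _
        rw [if_neg (by omega), Nat.add_sub_cancel_left]
      have hb1' : ∀ i, i < l → (fun i => if i < l then 0 else if i = l then b else
          b' (i - (l + 1))) i = 0 := fun i hi => if_pos hi
      have hb2' : (fun i => if i < l then 0 else if i = l then b else
          b' (i - (l + 1))) l = b := by simp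
      have hb3' : ∀ i, (fun i => if i < l then 0 else if i = l then b else
          b' (i - (l + 1))) (l + 1 + i) = b' i := fun i => by
        change (if l + 1 + i < l then _ else if l + 1 + i = l then _ else _) = _
        rw [if_neg (by omega), if_neg (by omega), Nat.add_sub_cancel_left]
      generalize (fun i => if i ≤ l then rw n A q p i else φ' (i - (l + 1))) = φ at hφ1 hφ2
      generalize (fun i => if i < l then 0 else if i = l then b else
          b' (i - (l + 1))) = β at hb1' hb2' hb3'
      refine ⟨l + 1 + N', φ, β, by omega, ?_, ?_, ?_, by rw [hφ1 a hal, hav], ⟨?_, ?_⟩, ?_, ?_⟩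
      · intro i hi
        rcases Nat.lt_or_ge l i with h | h
        · obtain ⟨i', rfl⟩ := Nat.exists_eq_add_of_le (show l + 1 ≤ i from h)
          rw [hφ2]
          have := hmem i' (by omega)
          exact (hSu _ (lt_of_mem_cmp hA this)).2 (Or.inl this)
        · rw [hφ1 i h]
          exact (hSu _ (hr i)).2 (Or.inr ⟨i, by omega, h, rfl⟩)
      · intro i hi j hj hij
        rcases Nat.lt_or_ge l i with h | h <;> rcases Nat.lt_or_ge l j with h' | h'
        · obtain ⟨i', rfl⟩ := Nat.exists_eq_add_of_le (show l + 1 ≤ i from h)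
          obtain ⟨j', rfl⟩ := Nat.exists_eq_add_of_le (show l + 1 ≤ j from h')
          rw [hφ2, hφ2] at hij
          rw [hinj' i' (by omega) j' (by omega) hij]
        · exfalso
          obtain ⟨i', rfl⟩ := Nat.exists_eq_add_of_le (show l + 1 ≤ i from h)
          rw [hφ2, hφ1 j h'] at hij
          exact hdis j (by omega) h' (hij ▸ hmem i' (by omega))
        · exfalso
          obtain ⟨j', rfl⟩ := Nat.exists_eq_add_of_le (show l + 1 ≤ j from h')
          rw [hφ2, hφ1 i h] at hij
          exact hdis i (by omega) h (hij ▸ hmem j' (by omega))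
        · rw [hφ1 i h, hφ1 j h'] at hij
          exact hinj i (by omega) j (by omega) h h' hij
      · intro x hx
        rcases (hSu x (hS x hx)).1 hx with h | ⟨i, _, hi, h⟩
        · obtain ⟨i, hi, h'⟩ := hsurj x h
          exact ⟨l + 1 + i, by omega, by rw [hφ2, h']⟩
        · exact ⟨i, by omega, by rw [hφ1 i hi, h]⟩
      · intro j hj
        rcases Nat.lt_trichotomy j l with h | h | h
        · rw [hb1' j h]; omega
        · rw [h, hb2']; omega
        · obtain ⟨j', rfl⟩ := Nat.exists_eq_add_of_le (show l + 1 ≤ j from h)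
          rw [hb3']
          have := hval1 j' (by omega)
          omega
      · intro i j hij hj hi0 hj0
        have hil : l ≤ i := by
          by_contra hc
          rw [hb1' i (by omega)] at hi0
          omega
        obtain ⟨j', rfl⟩ := Nat.exists_eq_add_of_le (show l + 1 ≤ j by omega)
        rw [hb3'] at hj0 ⊢
        rcases Nat.eq_or_lt_of_le hil with h | h
        · rw [← h, hb2']
          have h1 := hfirst j' (by omega) hj0
          have h2 := hval1 j' (by omega)
          omega
        · obtain ⟨i', rfl⟩ := Nat.exists_eq_add_of_le (show l + 1 ≤ i from h)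
          rw [hb3'] at hi0 ⊢
          have h1 := hval2 i' j' (by omega) (by omega) hi0 hj0
          omega
      · intro j hj
        rcases Nat.lt_trichotomy j l with h | h | h
        · rw [hb1' j h, hφ1 _ (by omega), hφ1 _ (by omega)]
          exact hadj j (by omega) h
        · rw [h, hb2', hφ1 _ (by omega), hφ2, hav']
          exact huv
        · obtain ⟨j', rfl⟩ := Nat.exists_eq_add_of_le (show l + 1 ≤ j from h)
          rw [hb3']
          have h1 := hval1 j' (by omega)
          have e1 : l + 1 + j' - b' j' = l + 1 + (j' - b' j') := by omega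
          have e2 : l + 1 + j' + 1 + b' j' = l + 1 + (j' + 1 + b' j') := by omega
          rw [e1, e2, hφ2, hφ2]
          exact hadj' j' (by omega)
      · intro j hj hj0
        by_contra hc
        rw [hb1' j (by omega)] at hj0
        omega

end Pool.Agent.K4H99.PathLike
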