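import Pool.Agent.K4H99.PathLike.Defs

/-!
# The combinatorial description of path-like trees
-/

namespace Pool.Agent.K4H99.PathLike

/-- `a j` is the length of the legs at the `j`-th edge. -/
def Valid (n : ℕ) (a : ℕ → ℕ) : Prop :=
  (∀ j, j + 1 < n → a j ≤ j ∧ j + 1 + a j < n) ∧
    ∀ i j, i < j → j + 1 < n → 0 < a i → 0 < a j → i + a i < j ∧ i + a j < j

/-- The graph in which `j - a j` and `j + 1 + a j` are adjacent. -/
def Gam (n : ℕ) (a : ℕ → ℕ) : SimpleGraph (Fin n) where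
  Adj x y := ∃ j, j + 1 < n ∧ (((x : ℕ) = j - a j ∧ (y : ℕ) = j + 1 + a j) ∨
    ((y : ℕ) = j - a j ∧ (x : ℕ) = j + 1 + a j))
  symm := ⟨fun x y ⟨j, hj, h⟩ => ⟨j, hj, h.symm⟩⟩
  loopless := ⟨fun x ⟨j, hj, h⟩ => by omega⟩

theorem gam_adj {n : ℕ} {a : ℕ → ℕ} {x y : Fin n} : (Gam n a).Adj x y ↔
    ∃ j, j + 1 < n ∧ (((x : ℕ) = j - a j ∧ (y : ℕ) = j + 1 + a j) ∨
    ((y : ℕ) = j - a j ∧ (x : ℕ) = j + 1 + a j)) := Iff.rfl

/-- If a tree contains the edges of `Gam n a` then it has no other edges. -/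
theorem counting {n : ℕ} {T : SimpleGraph (Fin n)} (hT : T.IsTree) (φ : Fin n ≃ Fin n)
    {a : ℕ → ℕ} (ha : ∀ j, j + 1 < n → a j ≤ j ∧ j + 1 + a j < n)
    (hadj : ∀ x y : Fin n, (Gam n a).Adj x y → T.Adj (φ x) (φ y)) (x y : Fin n) :
    T.Adj (φ x) (φ y) ↔ (Gam n a).Adj x y := by
  classical
  refine ⟨fun h => ?_, hadj x y⟩
  have hcard := hT.card_edgeFinset
  rw [Fintype.card_fin] at hcard
  have hlt : ∀ j : Fin (n - 1), (j : ℕ) + 1 < n := fun j => by omega
  let k : Fin (n - 1) → Fin n := fun j => ⟨j - a j, by have := hlt j; omega⟩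
  let l : Fin (n - 1) → Fin n := fun j => ⟨j + 1 + a j, (ha j (hlt j)).2⟩
  have hkl : ∀ j, (k j : ℕ) + l j = 2 * j + 1 := fun j => by
    change ((j : ℕ) - a j) + (j + 1 + a j) = _
    have := (ha j (hlt j)).1
    omega
  let g : Fin (n - 1) → Sym2 (Fin n) := fun j => s(φ (k j), φ (l j))
  have hg : Function.Injective g := by
    intro i j hij
    simp only [g, Sym2.eq_iff, EmbeddingLike.apply_eq_iff_eq] at hij
    have h1 := hkl i
    have h2 := hkl j
    rcases hij with ⟨h3, h4⟩ | ⟨h3, h4⟩ <;> rw [h3, h4] at h1 <;> apply Fin.ext <;> omega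
  have hsub : Finset.univ.image g ⊆ T.edgeFinset := by
    intro e he
    obtain ⟨j, -, rfl⟩ := Finset.mem_image.1 he
    rw [SimpleGraph.mem_edgeFinset, SimpleGraph.mem_edgeSet]
    exact hadj _ _ ⟨j, hlt j, Or.inl ⟨rfl, rfl⟩⟩
  have heq : Finset.univ.image g = T.edgeFinset := by
    refine Finset.eq_of_subset_of_card_le hsub ?_
    rw [Finset.card_image_of_injective _ hg, Finset.card_univ, Fintype.card_fin]
    omega
  have hmem : s(φ x, φ y) ∈ Finset.univ.image g := by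
    rw [heq, SimpleGraph.mem_edgeFinset, SimpleGraph.mem_edgeSet]; exact h
  obtain ⟨j, -, hj⟩ := Finset.mem_image.1 hmem
  simp only [g, Sym2.eq_iff, EmbeddingLike.apply_eq_iff_eq] at hj
  refine ⟨j, hlt j, ?_⟩
  rcases hj with ⟨h1, h2⟩ | ⟨h1, h2⟩
  · left; rw [← h1, ← h2]; exact ⟨rfl, rfl⟩
  · right; rw [← h1, ← h2]; exact ⟨rfl, rfl⟩

/-! ### From embeddings to leg lengths -/

theorem transformed_adj {n : ℕ} {𝒯 : Set (ℕ × ℕ × ℕ)} {x y : Fin n} : (transformed n 𝒯).Adj x y ↔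
    (s(x, y) ∈ pathEdges n ∧ s(x, y) ∉ deletedEdges n 𝒯 ∨ s(x, y) ∈ addedEdges n 𝒯) ∧ x ≠ y := by
  simp only [transformed, SimpleGraph.fromEdgeSet_adj, Set.mem_union, Set.mem_sdiff]

section grid

theorem gridAdj_sub {p q : ℤ × ℤ} (h : GridAdj p q) : (q - p).1 ^ 2 + (q - p).2 ^ 2 = 1 := by
  unfold GridAdj at h
  simp only [Prod.fst_sub, Prod.snd_sub]
  linarith [h]

/-- a unit vector of the grid -/
def IsUnit4 (d : ℤ × ℤ) : Prop := d = (1, 0) ∨ d = (-1, 0) ∨ d = (0, 1) ∨ d = (0, -1)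

theorem isUnit4_of {d : ℤ × ℤ} (h : d.1 ^ 2 + d.2 ^ 2 = 1) : IsUnit4 d := by
  obtain ⟨a, b⟩ := d
  simp only at h
  have ha : -1 ≤ a ∧ a ≤ 1 := by constructor <;> nlinarith [sq_nonneg b, sq_nonneg a]
  have hb : -1 ≤ b ∧ b ≤ 1 := by constructor <;> nlinarith [sq_nonneg b, sq_nonneg a]
  obtain ⟨ha1, ha2⟩ := ha
  obtain ⟨hb1, hb2⟩ := hb
  unfold IsUnit4
  interval_cases a <;> interval_cases b <;> simp at h ⊢

theorem uturn {d d' d'' : ℤ × ℤ} (h : IsUnit4 d) (h' : IsUnit4 d') (h'' : IsUnit4 d'')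
    (t1 : d' ≠ d) (t1' : d' + d ≠ 0) (t2 : d'' ≠ d') (t2' : d'' + d' ≠ 0)
    (hs : IsUnit4 (d + d' + d'')) : d + d'' = 0 := by
  unfold IsUnit4 at *
  rcases h with rfl | rfl | rfl | rfl <;> rcases h' with rfl | rfl | rfl | rfl <;>
    first
    | exact absurd rfl t1
    | exact absurd rfl t1'
    | (rcases h'' with rfl | rfl | rfl | rfl <;>
        first
        | exact absurd rfl t2
        | exact absurd rfl t2'
        | rfl
        | exact absurd hs (by decide))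

/-- Two consecutive single edge segments with transformations of their own collide. -/
theorem collide {p0 p1 p2 p3 p4 : ℤ × ℤ} (h01 : GridAdj p0 p1) (h12 : GridAdj p1 p2)
    (h23 : GridAdj p2 p3) (h34 : GridAdj p3 p4) (t1 : p2 - p1 ≠ p1 - p0) (t2 : p3 - p2 ≠ p2 - p1)
    (t3 : p4 - p3 ≠ p3 - p2) (h02 : p2 ≠ p0) (h13 : p3 ≠ p1) (h24 : p4 ≠ p2)
    (h03 : GridAdj p0 p3) (h14 : GridAdj p1 p4) : p4 = p0 := by
  have d0 := isUnit4_of (gridAdj_sub h01)
  have d1 := isUnit4_of (gridAdj_sub h12)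
  have d2 := isUnit4_of (gridAdj_sub h23)
  have d3 := isUnit4_of (gridAdj_sub h34)
  have e1 := isUnit4_of (gridAdj_sub h03)
  have e2 := isUnit4_of (gridAdj_sub h14)
  have u1 := uturn d0 d1 d2 t1 (by simpa [sub_eq_zero] using h02) t2
    (by simpa [sub_eq_zero] using h13) (by convert e1 using 1; abel)
  have u2 := uturn d1 d2 d3 t2 (by simpa [sub_eq_zero] using h13) t3
    (by simpa [sub_eq_zero] using h24) (by convert e2 using 1; abel)
  have : p4 - p0 = (p1 - p0 + (p3 - p2)) + (p2 - p1 + (p4 - p3)) := by abel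
  rw [u1, u2, add_zero, sub_eq_zero] at this
  exact this

end grid

theorem IsSegment.turn_left {n s t : ℕ} {f : ℕ → ℤ × ℤ} (h : IsSegment n f s t) (hs : s ≠ 0) :
    ¬ StraightAt f s := h.2.2.2.1 hs

theorem IsSegment.turn_right {n s t : ℕ} {f : ℕ → ℤ × ℤ} (h : IsSegment n f s t)
    (ht : t + 1 ≠ n) : ¬ StraightAt f t := h.2.2.2.2 ht

/-- A turn cannot be inside a segment. -/
theorem IsSegment.not_inside {n s t i : ℕ} {f : ℕ → ℤ × ℤ} (h : IsSegment n f s t)
    (hi : ¬ StraightAt f i) : i ≤ s ∨ t ≤ i := by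
  by_contra hc
  push Not at hc
  exact hi (h.2.2.1 i hc.1 hc.2)

theorem valid_pair {n : ℕ} {f : ℕ → ℤ × ℤ} (hf : IsEmbedding n f) {i j b c : ℕ} (hij : i < j)
    (hb : 0 < b) (hc : 0 < c) (hbi : b ≤ i) (hcj : c ≤ j)
    (h1 : IsElementary n f (i, i - b, i + 1 + b)) (h2 : IsElementary n f (j, j - c, j + 1 + c)) :
    i + b < j ∧ i + c < j := by
  obtain ⟨s, t, hs, hm, ht, ⟨hk1, hk2⟩, ⟨hl1, hl2⟩, hg, -⟩ := h1
  obtain ⟨s', t', hs', hm', ht', ⟨hk1', hk2'⟩, ⟨hl1', hl2'⟩, hg', -⟩ := h2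
  simp only at hs hm ht hk1 hk2 hl1 hl2 hg hs' hm' ht' hk1' hk2' hl1' hl2' hg'
  have ht'n := ht'.2.1
  have ti : ¬ StraightAt f i := hm.turn_left (by omega)
  have ti1 : ¬ StraightAt f (i + 1) := ht.turn_left (by omega)
  have tj : ¬ StraightAt f j := hm'.turn_left (by omega)
  have tj1 : ¬ StraightAt f (j + 1) := ht'.turn_left (by omega)
  have hne : j ≠ i + 1 := by
    rintro rfl
    -- both segments are single edges
    have e1 : t = i + 1 + 1 := by
      have := ht.not_inside tj1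
      have := hm'.2.1
      rcases this with h | h <;> omega
    have e2 : s' = i := by
      have := hs'.not_inside ti
      rcases this with h | h
      · exact le_antisymm (by
          by_contra hlt
          push Not at hlt
          omega) (by omega)
      · omega
    have hb1 : b = 1 := by omega
    have hc1 : c = 1 := by omega
    subst hb1 hc1
    obtain ⟨m, rfl⟩ : ∃ m, i = m + 1 := ⟨i - 1, by omega⟩
    have hn : m + 4 < n := by omega
    have key := collide (hf.2 m (by omega)) (hf.2 (m + 1) (by omega)) (hf.2 (m + 2) (by omega))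
      (hf.2 (m + 3) (by omega)) (by simpa [StraightAt] using ti) (by simpa [StraightAt] using ti1)
      (by simpa [StraightAt] using tj1)
      (fun h => by have := hf.1 _ (by omega) _ (by omega) h; omega)
      (fun h => by have := hf.1 _ (by omega) _ (by omega) h; omega)
      (fun h => by have := hf.1 _ (by omega) _ (by omega) h; omega)
      (by simpa using hg) (by simpa using hg')
    have := hf.1 _ (by omega) _ (by omega) key
    omega
  have h3 : t ≤ j := by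
    have := ht.not_inside tj
    rcases this with h | h <;> omega
  have h4 : i + 1 ≤ s' := by
    have := hs'.not_inside ti1
    rcases this with h | h
    · exact h
    · omega
  omega

/-- **From embeddings to leg lengths.** -/
theorem exists_valid {n : ℕ} {T : SimpleGraph (Fin n)} (hT : T.IsTree) {f : ℕ → ℤ × ℤ}
    (hf : IsEmbedding n f) {𝒯 : Set (ℕ × ℕ × ℕ)} (h𝒯 : ∀ τ ∈ 𝒯, IsElementary n f τ)
    (e : T ≃g transformed n 𝒯) : ∃ a, Valid n a ∧ Nonempty (T ≃g Gam n a) := by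
  classical
  have key : ∀ j, ∃ c, j + 1 < n → ((c = 0 ∨ (j, j - c, j + 1 + c) ∈ 𝒯) ∧ c ≤ j ∧ j + 1 + c < n ∧
      ∀ x y : Fin n, (x : ℕ) = j - c → (y : ℕ) = j + 1 + c → (transformed n 𝒯).Adj x y) := by
    intro j
    by_cases hj : j + 1 < n
    swap
    · exact ⟨0, fun h => absurd h hj⟩
    by_cases hτ : ∃ τ ∈ 𝒯, τ.1 = j
    · obtain ⟨⟨j', k, l⟩, hτ, hj'⟩ := hτ
      simp only at hj'
      subst hj'
      obtain ⟨s, t, hs, hm, ht, ⟨hk1, hk2⟩, ⟨hl1, hl2⟩, hg, hd⟩ := h𝒯 _ hτ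
      simp only at hs hm ht hk1 hk2 hl1 hl2 hg hd
      have htn := ht.2.1
      have hjk : j' - (j' - k) = k := by omega
      have hjl : j' + 1 + (j' - k) = l := by omega
      refine ⟨j' - k, fun _ => ⟨Or.inr ?_, by omega, by omega, ?_⟩⟩
      · rw [hjk, hjl]; exact hτ
      · intro x y hx hy
        rw [hjk] at hx
        rw [hjl] at hy
        refine transformed_adj.2 ⟨Or.inr ⟨_, hτ, x, y, hx, hy, rfl⟩, ?_⟩
        rintro rfl
        omega
    · refine ⟨0, fun _ => ⟨Or.inl rfl, by omega, by omega, ?_⟩⟩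
      intro x y hx hy
      refine transformed_adj.2 ⟨Or.inl ⟨⟨x, y, by omega, rfl⟩, ?_⟩, ?_⟩
      · rintro ⟨τ, hτ', x', y', hx', hy', he⟩
        refine hτ ⟨τ, hτ', ?_⟩
        simp only [Sym2.eq_iff] at he
        rcases he with ⟨h1, h2⟩ | ⟨h1, h2⟩
        · rw [← hx', ← h1]; omega
        · have : (x : ℕ) = y' := by rw [h1]
          have : (y : ℕ) = x' := by rw [h2]
          omega
      · rintro rfl
        omega
  choose a ha using key
  have hH : (transformed n 𝒯).IsTree := e.isTree_iff.1 hT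
  have hval : ∀ j, j + 1 < n → a j ≤ j ∧ j + 1 + a j < n := fun j hj =>
    ⟨(ha j hj).2.1, (ha j hj).2.2.1⟩
  have hadj : ∀ x y : Fin n, (Gam n a).Adj x y →
      (transformed n 𝒯).Adj (Equiv.refl _ x) (Equiv.refl _ y) := by
    rintro x y ⟨j, hj, ⟨h1, h2⟩ | ⟨h1, h2⟩⟩
    · exact (ha j hj).2.2.2 x y h1 h2
    · exact ((ha j hj).2.2.2 y x h1 h2).symm
  have hiff := counting hH (Equiv.refl _) hval hadj
  have hEq : transformed n 𝒯 = Gam n a := by
    ext x y
    exact hiff x y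
  refine ⟨a, ⟨hval, ?_⟩, ⟨hEq ▸ e⟩⟩
  intro i j hij hj hai haj
  have h1 := (ha i (by omega))
  have h2 := (ha j hj)
  exact valid_pair hf hij hai haj h1.2.1 h2.2.1 (h𝒯 _ (h1.1.resolve_left (by omega)))
    (h𝒯 _ (h2.1.resolve_left (by omega)))

end Pool.Agent.K4H99.PathLike
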