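import Pool.Agent.K4H99.PathLike.Alg

/-!
# The algorithm: completeness
-/

namespace Pool.Agent.K4H99.PathLike

open Pool.Agent.H685R2.VST

/-- `φ` arranges the vertices `0, …, n - 1` as the vertices of `Gam n a`. -/
structure Lab (n : ℕ) (A : ℕ → ℕ → Bool) (a φ : ℕ → ℕ) : Prop where
  lt : ∀ i < n, φ i < n
  inj : ∀ i < n, ∀ j < n, φ i = φ j → i = j
  surj : ∀ x < n, ∃ i < n, φ i = x
  adj : ∀ j, j + 1 < n → A (φ (j - a j)) (φ (j + 1 + a j)) = true
  adj' : ∀ x < n, ∀ y < n, A (φ x) (φ y) = true → ∃ j, j + 1 < n ∧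
    ((x = j - a j ∧ y = j + 1 + a j) ∨ (y = j - a j ∧ x = j + 1 + a j))

variable {n : ℕ} {A : ℕ → ℕ → Bool} {a φ : ℕ → ℕ}

theorem Lab.zero (h : Lab n A a φ) {i : ℕ} (hi : i + 1 < n) (h0 : a i = 0) :
    A (φ i) (φ (i + 1)) = true := by
  have := h.adj i hi
  rwa [h0] at this

theorem Lab.run (h : Lab n A a φ) {B : ℕ → ℕ → Bool} {s : ℕ} : ∀ t, s ≤ t → t < n →
    (∀ i, s ≤ i → i < t → B (φ i) (φ (i + 1)) = true) → Rr n B (φ s) (φ t) := by
  intro t hst
  induction hst with
  | refl => exact fun _ _ => Rs.refl _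
  | @step t hst ih =>
    intro ht hB
    exact (ih (by omega) fun i hi hi' => hB i hi (by omega)).trans
      (Rs.single (hB t hst (by omega)) (List.mem_range.2 (h.lt _ (by omega)))
        (List.mem_range.2 (h.lt _ ht)))

/-- no edge lies on a cycle -/
def Bridges (n : ℕ) (A : ℕ → ℕ → Bool) : Prop := ∀ x < n, ∀ y < n, A x y = true → x ∉ cmp n A x y

theorem Lab.nx_eq (hA : IsAdj n A) (hbr : Bridges n A) (h : Lab n A a φ) {x t : ℕ}
    (hxt : x < t) (ht : t < n) (h0 : ∀ i, x ≤ i → i < t → a i = 0) :
    nx n A (φ t) (φ x) = φ (x + 1) := by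
  have hpath : ∀ y, Rr n (del A (φ x) y) (φ (x + 1)) (φ t) := by
    intro y
    refine h.run t (by omega) ht fun i hi hi' => ?_
    rw [del_eq]
    refine ⟨h.zero (by omega) (h0 i (by omega) hi'), ?_, ?_⟩
    · rintro ⟨h1, -⟩
      have := h.inj _ (by omega) _ (by omega) h1
      omega
    · rintro ⟨-, h1⟩
      have := h.inj _ (by omega) _ (by omega) h1
      omega
  have hmem : φ (x + 1) ∈ (List.range n).filter
      (fun y => A (φ x) y && decide (φ t ∈ cmp n A (φ x) y)) := by
    rw [List.mem_filter, Bool.and_eq_true, decide_eq_true_eq]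
    exact ⟨List.mem_range.2 (h.lt _ (by omega)), h.zero (by omega) (h0 x le_rfl hxt),
      (mem_cmp hA).2 ⟨h.lt _ (by omega), h.lt _ ht, hpath _⟩⟩
  have huniq : ∀ y ∈ (List.range n).filter
      (fun y => A (φ x) y && decide (φ t ∈ cmp n A (φ x) y)), y = φ (x + 1) := by
    intro y hy
    rw [List.mem_filter, Bool.and_eq_true, decide_eq_true_eq, List.mem_range] at hy
    obtain ⟨hyn, hxy, hty⟩ := hy
    by_contra hne
    refine hbr (φ x) (h.lt _ (by omega)) y hyn hxy ?_
    rw [mem_cmp hA] at hty ⊢
    refine ⟨hyn, h.lt _ (by omega), hty.2.2.trans ?_⟩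
    refine ((hpath y).symm (fun _ _ => del_symm hA _ _ _ _)).trans (Rs.single ?_
      (List.mem_range.2 (h.lt _ (by omega))) (List.mem_range.2 (h.lt _ (by omega))))
    rw [del_eq]
    refine ⟨hA.symm _ _ (h.zero (by omega) (h0 x le_rfl hxt)), ?_, ?_⟩
    · rintro ⟨h1, -⟩
      have := h.inj _ (by omega) _ (by omega) h1
      omega
    · rintro ⟨h1, -⟩
      exact hne h1.symm
  unfold nx
  rcases hl : (List.range n).filter
      (fun y => A (φ x) y && decide (φ t ∈ cmp n A (φ x) y)) with _ | ⟨y, l⟩
  · rw [hl] at hmem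
    simp at hmem
  · simp only [List.head?_cons, Option.getD_some]
    exact huniq y (by rw [hl]; exact List.mem_cons_self)

theorem Lab.rw_eq (hA : IsAdj n A) (hbr : Bridges n A) (h : Lab n A a φ) {s t : ℕ}
    (ht : t < n) (h0 : ∀ i, s ≤ i → i < t → a i = 0) :
    ∀ i, s + i ≤ t → rw n A (φ t) (φ s) i = φ (s + i)
  | 0, _ => rw_zero
  | i + 1, hi => by
    rw [rw_succ (by omega), h.rw_eq hA hbr ht h0 i (by omega)]
    exact h.nx_eq hA hbr (by omega) ht fun j hj hj' => h0 j (by omega) hj'

/-- The cut at a transformed edge. -/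
theorem Lab.cut (hA : IsAdj n A) (hv : Valid n a) (h : Lab n A a φ) {t : ℕ}
    (ht : t + 1 < n) (hat : 0 < a t) {x : ℕ} :
    x ∈ cmp n A (φ (t - a t)) (φ (t + 1 + a t)) ↔ ∃ i, t + 1 ≤ i ∧ i < n ∧ φ i = x := by
  have hvt := hv.1 t ht
  rw [mem_cmp hA]
  constructor
  · rintro ⟨-, -, hr⟩
    induction hr with
    | refl => exact ⟨t + 1 + a t, by omega, by omega, rfl⟩
    | @tail z w _ hzw ih =>
      obtain ⟨i, hi, hin, rfl⟩ := ih
      obtain ⟨hzw, -, hwn⟩ := hzw
      rw [del_eq] at hzw
      obtain ⟨j, hj, rfl⟩ := h.surj w (List.mem_range.1 hwn)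
      refine ⟨j, ?_, hj, rfl⟩
      by_contra hc
      obtain ⟨k, hk, hk'⟩ := h.adj' i hin j hj hzw.1
      have hvk := hv.1 k hk
      rcases hk' with ⟨h1, h2⟩ | ⟨h1, h2⟩
      · omega
      · rcases Nat.lt_trichotomy k t with hkt | hkt | hkt
        · rcases Nat.eq_zero_or_pos (a k) with h3 | h3
          · omega
          · have := hv.2 k t hkt ht h3 hat
            omega
        · subst hkt
          exact hzw.2.2 ⟨by rw [h2], by rw [h1]⟩
        · rcases Nat.eq_zero_or_pos (a k) with h3 | h3
          · omega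
          · have := hv.2 t k hkt hk hat h3
            omega
  · rintro ⟨i, hi, hin, rfl⟩
    refine ⟨h.lt _ (by omega), h.lt _ hin, ?_⟩
    have hdel : ∀ x y, t + 1 ≤ x → t + 1 ≤ y → x < n → y < n → A (φ x) (φ y) = true →
        del A (φ (t - a t)) (φ (t + 1 + a t)) (φ x) (φ y) = true := by
      intro x y hx hy hxn hyn hxy
      rw [del_eq]
      refine ⟨hxy, ?_, ?_⟩
      · rintro ⟨h1, -⟩
        have := h.inj _ (by omega) _ (by omega) h1
        omega
      · rintro ⟨-, h1⟩
        have := h.inj _ (by omega) _ (by omega) h1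
        omega
    have key : ∀ i, t + 1 ≤ i → i < n →
        Rr n (del A (φ (t - a t)) (φ (t + 1 + a t))) (φ (t + 1)) (φ i) := by
      intro i
      induction i using Nat.strong_induction_on with
      | _ i ih =>
        intro hi hin
        rcases Nat.eq_or_lt_of_le hi with h1 | h1
        · rw [h1]; exact Rs.refl _
        · obtain ⟨j, rfl⟩ : ∃ j, i = j + 1 := ⟨i - 1, by omega⟩
          rcases Nat.eq_zero_or_pos (a j) with h2 | h2
          · refine (ih j (by omega) (by omega) (by omega)).trans (Rs.single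
              (hdel _ _ (by omega) hi (by omega) hin (h.zero hin h2))
              (List.mem_range.2 (h.lt _ (by omega))) (List.mem_range.2 (h.lt _ hin)))
          · have hvj := hv.1 j hin
            have h3 := hv.2 t j (by omega) hin hat h2
            have hjt : t + 1 ≤ j - a j := by omega
            refine ((ih (j - a j) (by omega) hjt (by omega)).trans (Rs.single
              (hdel _ _ hjt (by omega) (by omega) hvj.2 (h.adj j hin))
              (List.mem_range.2 (h.lt _ (by omega))) (List.mem_range.2 (h.lt _ hvj.2)))).trans ?_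
            refine Rs.symm (fun _ _ => del_symm hA _ _ _ _) ?_
            refine h.run _ (by omega) hvj.2 fun k hk hk' => ?_
            refine hdel _ _ (by omega) (by omega) (by omega) (by omega)
              (h.zero (by omega) (hv.zero_near hin h2 (by omega) (by omega) (by omega)))
    exact (Rs.symm (fun _ _ => del_symm hA _ _ _ _) (key _ (by omega) (by omega))).trans
      (key i hi hin)

/-- **Completeness.** -/
theorem Lab.complete (hA : IsAdj n A) (hbr : Bridges n A) (hv : Valid n a) (h : Lab n A a φ) :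
    ∀ m s : ℕ, s < n → n ≤ s + m → (s = 0 ∨ 0 < a (s - 1)) → ∀ (S : List ℕ) (c : ℕ), s + c < n →
      (∀ i, s ≤ i → i < s + c → a i = 0) →
      (∀ x < n, x ∈ S ↔ ∃ i, s ≤ i ∧ i < n ∧ φ i = x) →
      Good n A m S (φ (s + c)) (φ s) c
  | 0, s, hs, hm, _, _, _, _, _, _ => by omega
  | m + 1, s, hs, hm, hs0, S, c, hc, hzc, hS => by
    classical
    -- the end of the row
    obtain ⟨t, hst, htn, ht1, ht2⟩ : ∃ t, s ≤ t ∧ t < n ∧ (∀ i, s ≤ i → i < t → a i = 0) ∧
        (t + 1 ≠ n → ¬ ∀ i, s ≤ i → i < t + 1 → a i = 0) := by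
      have hle := Nat.findGreatest_le (P := fun t => ∀ i, s ≤ i → i < t → a i = 0) (n - 1)
      refine ⟨Nat.findGreatest (fun t => ∀ i, s ≤ i → i < t → a i = 0) (n - 1), ?_, ?_, ?_, ?_⟩
      · exact Nat.le_findGreatest (by omega) fun i _ _ => by omega
      · omega
      · exact Nat.findGreatest_spec (P := fun t => ∀ i, s ≤ i → i < t → a i = 0)
          (m := s) (by omega) (fun i _ _ => by omega)
      · intro hne
        exact Nat.findGreatest_is_greatest (P := fun t => ∀ i, s ≤ i → i < t → a i = 0)
          (n := n - 1) (Nat.lt_succ_self _) (by omega)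
    have ht3 : t + 1 ≠ n → a t ≠ 0 := by
      intro hne h0
      refine ht2 hne fun i hi hi' => ?_
      rcases Nat.lt_or_ge i t with h' | h'
      · exact ht1 i hi h'
      · have : i = t := by omega
        rw [this]; exact h0
    have hct : s + c ≤ t := by
      by_contra hlt
      exact ht3 (by omega) (hzc t hst (by omega))
    have hrw := h.rw_eq hA hbr htn ht1
    have hrow : ∀ x, (∃ i < n, i ≤ t - s ∧ rw n A (φ t) (φ s) i = x) ↔
        ∃ i, s ≤ i ∧ i ≤ t ∧ φ i = x := by
      intro x
      constructor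
      · rintro ⟨i, _, hi, rfl⟩
        exact ⟨s + i, by omega, by omega, (hrw i (by omega)).symm⟩
      · rintro ⟨i, hi, hit, rfl⟩
        refine ⟨i - s, by omega, by omega, ?_⟩
        rw [hrw _ (by omega)]
        congr 1
        omega
    refine ⟨φ t, h.lt t htn, t - s, by omega, ⟨by omega, hrw c hct, ?_, ?_⟩, ?_⟩
    · intro i _ hi
      rw [hrw i (by omega), hrw (i + 1) (by omega)]
      exact h.zero (by omega) (ht1 _ (by omega) (by omega))
    · intro i _ j _ hi hj hij
      rw [hrw i (by omega), hrw j (by omega)] at hij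
      have := h.inj _ (by omega) _ (by omega) hij
      omega
    · by_cases hlast : t + 1 = n
      · left
        intro x hx
        rw [hS x hx, hrow]
        constructor
        · rintro ⟨i, hi, hin, hx⟩
          exact ⟨i, hi, by omega, hx⟩
        · rintro ⟨i, hi, hin, hx⟩
          exact ⟨i, hi, by omega, hx⟩
      · right
        have hat : 0 < a t := Nat.pos_of_ne_zero (ht3 hlast)
        have htn' : t + 1 < n := by omega
        have hvt := hv.1 t htn'
        have hts : a t ≤ t - s := by
          rcases hs0 with h0 | h0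
          · omega
          · rcases Nat.eq_zero_or_pos s with h1 | h1
            · omega
            · have := hv.2 (s - 1) t (by omega) htn' h0 hat
              omega
        have hu : rw n A (φ t) (φ s) (t - s - a t) = φ (t - a t) := by
          rw [hrw _ (by omega)]
          congr 1
          omega
        have hcut := fun x => h.cut hA hv htn' hat (x := x)
        refine ⟨a t, by omega, φ (t + 1 + a t), h.lt _ hvt.2, φ (t + 1), h.lt _ htn', hat, hts,
          ?_, ?_, ?_, ?_⟩
        · rw [hu]
          exact h.adj t htn'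
        · intro x hx
          rw [hS x hx, hrow, hu, hcut]
          constructor
          · rintro ⟨i, hi, hin, hx⟩
            rcases Nat.lt_or_ge t i with h' | h'
            · exact Or.inl ⟨i, h', hin, hx⟩
            · exact Or.inr ⟨i, hi, h', hx⟩
          · rintro (⟨i, hi, hin, hx⟩ | ⟨i, hi, hin, hx⟩)
            · exact ⟨i, by omega, hin, hx⟩
            · exact ⟨i, hi, by omega, hx⟩
        · intro i _ hi
          rw [hrw i (by omega), hu, hcut]
          rintro ⟨j, hj, hjn, hij⟩
          have := h.inj _ hjn _ (by omega) hij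
          omega
        · rw [hu]
          refine h.complete hA hbr hv m (t + 1) htn' (by omega)
            (Or.inr (by rw [Nat.add_sub_cancel]; exact hat)) _ (a t) hvt.2 ?_ fun x _ => hcut x
          intro i hi hi'
          exact hv.zero_near htn' hat (by omega) (by omega) (by omega)

end Pool.Agent.K4H99.PathLike
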