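import Pool.Agent.K4H99.PathLike.Complete

/-!
# The criterion for graphs on `Fin n`
-/

namespace Pool.Agent.K4H99.PathLike

open Pool.Agent.H685R2.VST

variable {n : ℕ} {A : ℕ → ℕ → Bool}

theorem reachable_iff_rr {H : SimpleGraph (Fin n)} {B : ℕ → ℕ → Bool}
    (hB : ∀ i j : Fin n, H.Adj i j ↔ B i j = true) (x y : Fin n) :
    H.Reachable x y ↔ Rr n B x y := by
  constructor
  · rintro ⟨w⟩
    induction w with
    | nil => exact Rs.refl _
    | cons h _ ih =>
      exact (Rs.single ((hB _ _).1 h) (List.mem_range.2 (Fin.is_lt _))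
        (List.mem_range.2 (Fin.is_lt _))).trans ih
  · intro h
    have key : ∀ z : ℕ, Rr n B x z → ∀ hz : z < n, H.Reachable x ⟨z, hz⟩ := by
      intro z hz
      induction hz with
      | refl => exact fun _ => SimpleGraph.Reachable.refl _
      | @tail b c _ hbc ih =>
        intro hc
        have hb : b < n := List.mem_range.1 hbc.2.1
        exact (ih hb).trans (SimpleGraph.Adj.reachable ((hB ⟨b, hb⟩ ⟨c, hc⟩).2 hbc.1))
    exact key y h y.2

/-- the graph is a tree -/
def TreeCrit (n : ℕ) (A : ℕ → ℕ → Bool) : Prop :=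
  0 < n ∧ (∀ x < n, x ∈ reachL A (List.range n) 0) ∧ Bridges n A

theorem isTree_iff_crit (hA : IsAdj n A) {T : SimpleGraph (Fin n)}
    (hT : ∀ i j : Fin n, T.Adj i j ↔ A i j = true) : T.IsTree ↔ TreeCrit n A := by
  have hbr : T.IsAcyclic ↔ Bridges n A := by
    rw [SimpleGraph.isAcyclic_iff_forall_adj_isBridge]
    have hdel : ∀ x y : Fin n, (T.deleteEdges {s(x, y)}).Reachable y x ↔
        Rr n (del A x y) y x := by
      intro x y
      refine reachable_iff_rr (fun i j => ?_) y x
      rw [SimpleGraph.deleteEdges_adj, Set.mem_singleton_iff, Sym2.eq_iff, hT, del_eq]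
      simp only [Fin.ext_iff]
      tauto
    constructor
    · intro h x hx y hy hxy hmem
      have h1 := h ((hT ⟨x, hx⟩ ⟨y, hy⟩).2 hxy)
      rw [SimpleGraph.isBridge_iff] at h1
      exact h1 ((hdel ⟨x, hx⟩ ⟨y, hy⟩).2 ((mem_cmp hA).1 hmem).2.2).symm
    · intro h x y hxy
      rw [SimpleGraph.isBridge_iff]
      intro h1
      exact h x x.2 y y.2 ((hT x y).1 hxy) ((mem_cmp hA).2 ⟨y.2, x.2, (hdel x y).1 h1.symm⟩)
  rw [SimpleGraph.isTree_iff, hbr, TreeCrit, ← and_assoc]
  refine and_congr_left fun _ => ?_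
  rw [SimpleGraph.connected_iff_exists_forall_reachable]
  constructor
  · rintro ⟨v, hv⟩
    have hn : 0 < n := lt_of_le_of_lt (Nat.zero_le _) v.2
    refine ⟨hn, fun x hx => (mem_reachL hA.symm).2 ⟨List.mem_range.2 hn, List.mem_range.2 hx, ?_⟩⟩
    exact (reachable_iff_rr hT ⟨0, hn⟩ ⟨x, hx⟩).1 ((hv _).symm.trans (hv _))
  · rintro ⟨hn, h⟩
    refine ⟨⟨0, hn⟩, fun w => ?_⟩
    exact (reachable_iff_rr hT ⟨0, hn⟩ w).2 ((mem_reachL hA.symm).1 (h w w.2)).2.2

/-- **The criterion** for path-like trees. -/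
theorem isPathLike_iff_good (hA : IsAdj n A) {T : SimpleGraph (Fin n)}
    (hT : ∀ i j : Fin n, T.Adj i j ↔ A i j = true) {m : ℕ} (hm : n ≤ m) :
    IsPathLike T ↔ TreeCrit n A ∧ ∃ p < n, Good n A m (List.range n) p p 0 := by
  rw [isPathLike_iff, isTree_iff_crit hA hT]
  refine and_congr_right fun hcrit => ?_
  constructor
  · rintro ⟨a, ha, ⟨e⟩⟩
    obtain ⟨hn, -, hbr⟩ := hcrit
    let φ : ℕ → ℕ := fun i => if h : i < n then (e.symm ⟨i, h⟩ : ℕ) else 0
    have hφ : ∀ i (h : i < n), φ i = (e.symm ⟨i, h⟩ : ℕ) := fun i h => dif_pos h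
    have hlab : Lab n A a φ := by
      refine ⟨fun i hi => ?_, fun i hi j hj hij => ?_, fun x hx => ?_, fun j hj => ?_,
        fun x hx y hy hxy => ?_⟩
      · rw [hφ i hi]; exact Fin.is_lt _
      · rw [hφ i hi, hφ j hj] at hij
        have := e.symm.injective (Fin.ext hij)
        exact Fin.mk.inj_iff.1 this
      · refine ⟨(e ⟨x, hx⟩ : ℕ), Fin.is_lt _, ?_⟩
        rw [hφ _ (Fin.is_lt _)]
        simp
      · have hv := ha.1 j hj
        rw [hφ _ (by omega), hφ _ (by omega), ← hT]
        refine e.symm.map_adj_iff.2 ⟨j, hj, Or.inl ⟨rfl, rfl⟩⟩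
      · rw [hφ _ hx, hφ _ hy, ← hT, e.symm.map_adj_iff] at hxy
        exact hxy
    refine ⟨φ 0, hlab.lt 0 hn, ?_⟩
    refine hlab.complete hA hbr ha m 0 hn (by omega) (Or.inl rfl) (List.range n) 0 (by omega)
      (fun i _ _ => by omega) fun x hx => ?_
    constructor
    · intro _
      obtain ⟨i, hi, h⟩ := hlab.surj x hx
      exact ⟨i, by omega, hi, h⟩
    · intro _
      exact List.mem_range.2 hx
  · rintro ⟨p, hp, h⟩
    obtain ⟨N, φ, b, -, hmem, hinj, hsurj, -, hval, hadj, -⟩ :=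
      sound hA m _ p p 0 (fun x hx => List.mem_range.1 hx) hp h
    have hN : N = n := by
      have h1 : (Finset.range N).image φ = Finset.range n := by
        ext x
        simp only [Finset.mem_image, Finset.mem_range]
        constructor
        · rintro ⟨i, hi, rfl⟩
          exact List.mem_range.1 (hmem i hi)
        · intro hx
          exact hsurj x (List.mem_range.2 hx)
      have h2 := Finset.card_image_of_injOn (s := Finset.range N) (f := φ)
        (fun i hi j hj hij => hinj i (by simpa using hi) j (by simpa using hj) hij)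
      rw [h1, Finset.card_range, Finset.card_range] at h2
      exact h2.symm
    subst hN
    have hlt : ∀ i : Fin N, φ i < N := fun i => List.mem_range.1 (hmem i i.2)
    let ψ : Fin N → Fin N := fun i => ⟨φ i, hlt i⟩
    have hψ : Function.Injective ψ := fun i j hij =>
      Fin.ext (hinj i i.2 j j.2 (Fin.mk.inj_iff.1 hij))
    have hψb : Function.Bijective ψ := Finite.injective_iff_bijective.1 hψ
    let Ψ : Fin N ≃ Fin N := Equiv.ofBijective ψ hψb
    have hT' : T.IsTree := (isTree_iff_crit hA hT).2 hcrit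
    have hcount := counting hT' Ψ hval.1 (by
      intro x y hxy
      rw [hT]
      change A (φ x) (φ y) = true
      obtain ⟨j, hj, ⟨h1, h2⟩ | ⟨h1, h2⟩⟩ := hxy
      · rw [h1, h2]; exact hadj j hj
      · rw [h1, h2]; exact hA.symm _ _ (hadj j hj))
    refine ⟨b, hval, ⟨⟨Ψ.symm, ?_⟩⟩⟩
    intro x y
    rw [← hcount]
    simp

end Pool.Agent.K4H99.PathLike
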