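import Mathlib

/-!
# Path-like trees: definitions
-/

namespace Pool.Agent.K4H99.PathLike

/-- Adjacency in the two-dimensional grid: Euclidean distance one. -/
def GridAdj (p q : ℤ × ℤ) : Prop := (p.1 - q.1) ^ 2 + (p.2 - q.2) ^ 2 = 1

/-- `f` embeds the path with the vertices `0, …, n - 1` in the grid: the points
`f 0, …, f (n - 1)` are distinct and consecutive ones are adjacent in the grid. -/
def IsEmbedding (n : ℕ) (f : ℕ → ℤ × ℤ) : Prop :=
  (∀ i < n, ∀ j < n, f i = f j → i = j) ∧ ∀ i, i + 1 < n → GridAdj (f i) (f (i + 1))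

/-- The embedded path goes straight on at its vertex `i`. -/
def StraightAt (f : ℕ → ℤ × ℤ) (i : ℕ) : Prop := f (i + 1) - f i = f i - f (i - 1)

/-- The vertices `s, …, t` of the embedded path form a maximal straight segment. -/
def IsSegment (n : ℕ) (f : ℕ → ℤ × ℤ) (s t : ℕ) : Prop :=
  s < t ∧ t < n ∧ (∀ i, s < i → i < t → StraightAt f i) ∧
    (s ≠ 0 → ¬ StraightAt f s) ∧ (t + 1 ≠ n → ¬ StraightAt f t)

/-- The triple `τ = (j, k, l)` is an elementary transformation of the embedded path: the single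
edge joining the vertices `j` and `j + 1` is a maximal straight segment, it lies between the
maximal straight segments `s, …, j` and `j + 1, …, t`, the vertex `k` lies on the former, the
vertex `l` lies on the latter, the points `f k` and `f l` are adjacent in the grid, and
the distance of `k` and `j` and the distance of `l` and `j + 1` along these segments are equal.
(The transformation replaces the edge joining `j` and `j + 1` by the edge joining `k` and `l`.) -/
def IsElementary (n : ℕ) (f : ℕ → ℤ × ℤ) (τ : ℕ × ℕ × ℕ) : Prop :=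
  ∃ s t : ℕ, IsSegment n f s τ.1 ∧ IsSegment n f τ.1 (τ.1 + 1) ∧ IsSegment n f (τ.1 + 1) t ∧
    (s ≤ τ.2.1 ∧ τ.2.1 ≤ τ.1) ∧ (τ.1 + 1 ≤ τ.2.2 ∧ τ.2.2 ≤ t) ∧
    GridAdj (f τ.2.1) (f τ.2.2) ∧ τ.1 - τ.2.1 = τ.2.2 - (τ.1 + 1)

/-- The edges of the path with the vertices `0, …, n - 1`. -/
def pathEdges (n : ℕ) : Set (Sym2 (Fin n)) :=
  {e | ∃ x y : Fin n, (x : ℕ) + 1 = y ∧ e = s(x, y)}

/-- The edges deleted by the transformations in `𝒯`. -/
def deletedEdges (n : ℕ) (𝒯 : Set (ℕ × ℕ × ℕ)) : Set (Sym2 (Fin n)) :=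
  {e | ∃ τ ∈ 𝒯, ∃ x y : Fin n, (x : ℕ) = τ.1 ∧ (y : ℕ) = τ.1 + 1 ∧ e = s(x, y)}

/-- The edges added by the transformations in `𝒯`. -/
def addedEdges (n : ℕ) (𝒯 : Set (ℕ × ℕ × ℕ)) : Set (Sym2 (Fin n)) :=
  {e | ∃ τ ∈ 𝒯, ∃ x y : Fin n, (x : ℕ) = τ.2.1 ∧ (y : ℕ) = τ.2.2 ∧ e = s(x, y)}

/-- The graph obtained from the path with the vertices `0, …, n - 1` by performing the
transformations in `𝒯`. -/
def transformed (n : ℕ) (𝒯 : Set (ℕ × ℕ × ℕ)) : SimpleGraph (Fin n) :=
  SimpleGraph.fromEdgeSet ((pathEdges n \ deletedEdges n 𝒯) ∪ addedEdges n 𝒯)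

/-- `T` is (isomorphic to) a path-like tree: it is a tree obtained from some embedding of the path
with `n` vertices in the grid by performing a set of elementary transformations of the
embedding. -/
def IsPathLike {n : ℕ} (T : SimpleGraph (Fin n)) : Prop :=
  T.IsTree ∧ ∃ (f : ℕ → ℤ × ℤ) (𝒯 : Set (ℕ × ℕ × ℕ)), IsEmbedding n f ∧
    (∀ τ ∈ 𝒯, IsElementary n f τ) ∧ Nonempty (T ≃g transformed n 𝒯)

/-- `x` consists of the vertex list and an edge list of the graph `G` with the vertices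
`0, …, n - 1`. -/
def Describes (x : List ℕ × List (ℕ × ℕ)) {n : ℕ} (G : SimpleGraph (Fin n)) : Prop :=
  x.1 = List.range n ∧ (∀ e ∈ x.2, e.1 < n ∧ e.2 < n) ∧
    ∀ i j : Fin n, G.Adj i j ↔ ((i : ℕ), (j : ℕ)) ∈ x.2 ∨ ((j : ℕ), (i : ℕ)) ∈ x.2

/-- The recognition problem of path-like trees: `x` is a description, by vertex list and edge
list, of a path-like tree. -/
def PathLikeProblem (x : List ℕ × List (ℕ × ℕ)) : Prop :=
  ∃ (n : ℕ) (T : SimpleGraph (Fin n)), Describes x T ∧ IsPathLike T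

end Pool.Agent.K4H99.PathLike
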