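import Pool.Agent.K4H99.PathLike.Pol

/-!
# The recognition problem of path-like trees is in P
-/

namespace Pool.Agent.K4H99.PathLike

open Pool.Agent.H685R2.VST Pool.Agent.NPC

theorem sz_filter_le' {α : Type} [TEnc α] (l : List α) (p : α → Bool) :
    sz (l.filter p) ≤ sz l := by
  induction l with
  | nil => simp
  | cons a l ih =>
    rw [List.filter_cons]
    split_ifs
    · rw [sz_list_cons, sz_list_cons]; omega
    · rw [sz_list_cons]; omega

section

variable {α : Type} [TEnc α]

theorem poly_reachL' {R : α → ℕ → ℕ → Bool} {S : α → List ℕ} {x : α → ℕ}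
    (hR : Poly (fun p : α × ℕ × ℕ => R p.1 p.2.1 p.2.2)) (hS : Poly S) (hx : Poly x) :
    Poly (fun a => reachL (R a) (S a) (x a)) := by
  obtain ⟨q, hq⟩ := hS.sz_le
  unfold reachL
  refine Poly.iterLen (l := S) (s := fun a => (S a).filter (fun y => decide (y = x a)))
    (F := fun a L => (S a).filter (fun y => decide (y ∈ L) || L.any (fun z => R a z y)))
    hS ?_ ?_ q ?_
  · fun_prop
  · fun_prop
  · intro a k _
    cases k with
    | zero => exact (sz_filter_le' _ _).trans (hq a)
    | succ k =>
      rw [Function.iterate_succ', Function.comp_apply]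
      exact (sz_filter_le' _ _).trans (hq a)

variable {x : α → Inp}

theorem poly_range (hx : Poly x) : Poly (fun a => List.range (x a).1.length) :=
  Poly.range_length (Poly.fst hx)

attribute [fun_prop] poly_range

theorem poly_adjI {i j : α → ℕ} (hx : Poly x) (hi : Poly i) (hj : Poly j) :
    Poly (fun a => adjI (x a) (i a) (j a)) := by
  unfold adjI
  fun_prop

attribute [fun_prop] poly_adjI

theorem poly_cmpI {u v : α → ℕ} (hx : Poly x) (hu : Poly u) (hv : Poly v) :
    Poly (fun a => cmpI (x a) (u a) (v a)) := by
  unfold cmpI cmp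
  refine poly_reachL' (R := fun a => del (adjI (x a)) (u a) (v a)) ?_ (poly_range hx) hv
  unfold del
  fun_prop

attribute [fun_prop] poly_cmpI

theorem poly_nxI {q y : α → ℕ} (hx : Poly x) (hq : Poly q) (hy : Poly y) :
    Poly (fun a => nxI (x a) (q a) (y a)) := by
  have h : Poly (fun a => (((List.range (x a).1.length).filter (fun z => adjI (x a) (y a) z &&
      decide (q a ∈ cmpI (x a) (y a) z))).head?).getD (y a)) := by
    fun_prop
  exact h

theorem length_filter_lt (n i : ℕ) :
    ((List.range n).filter (fun k => decide (k < i))).length = min i n := by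
  induction n with
  | zero => simp
  | succ n ih =>
    rw [List.range_succ, List.filter_append, List.length_append, ih, List.filter_cons]
    by_cases h : n < i
    · simp [h]; omega
    · simp [h]; omega

theorem nx_le {n : ℕ} {A : ℕ → ℕ → Bool} {q p : ℕ} : ∀ k, (nx n A q)^[k] p < n ∨
    (nx n A q)^[k] p = p
  | 0 => Or.inr rfl
  | k + 1 => by
    rw [Function.iterate_succ', Function.comp_apply]
    rcases nx_le k with h | h
    · exact Or.inl (nx_lt h)
    · rw [h]
      unfold nx
      rcases h : ((List.range n).filter (fun y => A p y && decide (q ∈ cmp n A p y))).head? with _ | y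
      · simp
      · left
        simp only [Option.getD_some]
        have := List.mem_of_mem_head? (Option.mem_def.2 h)
        simp only [List.mem_filter, List.mem_range] at this
        exact this.1

theorem poly_rwI {q p i : α → ℕ} (hx : Poly x) (hq : Poly q) (hp : Poly p) (hi : Poly i) :
    Poly (fun a => rwI (x a) (q a) (p a) (i a)) := by
  have hl : Poly (fun a => (List.range (x a).1.length).filter (fun k => decide (k < i a))) := by
    fun_prop
  have hlen : Poly (fun a => (x a).1.length) := by fun_prop
  obtain ⟨q1, hq1⟩ := hlen.sz_le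
  obtain ⟨q2, hq2⟩ := hp.sz_le
  have h := Poly.iterLen (l := fun a => (List.range (x a).1.length).filter
    (fun k => decide (k < i a))) (s := p) (F := fun a y => nxI (x a) (q a) y) hl hp
    (poly_nxI (x := fun p : α × ℕ => x p.1) (by fun_prop) (by fun_prop) (by fun_prop))
    (Polynomial.C 2 * q1 + q2) (by
      intro a k _
      rw [Polynomial.eval_add, Polynomial.eval_mul, Polynomial.eval_C]
      rcases nx_le (n := (x a).1.length) (A := adjI (x a)) (q := q a) (p := p a) k with h | h
      · have h1 := sz_nat_mono_le h.le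
        have h2 := hq1 a
        change sz ((nx (x a).1.length (adjI (x a)) (q a))^[k] (p a)) ≤ _
        omega
      · change sz ((nx (x a).1.length (adjI (x a)) (q a))^[k] (p a)) ≤ _
        rw [h]
        have := hq2 a
        omega)
  refine h.congr fun a => ?_
  rw [length_filter_lt]
  rfl

attribute [fun_prop] poly_rwI

theorem poly_univI (hx : Poly x) : Poly (fun a => univI (x a)) := by
  unfold univI
  fun_prop

attribute [fun_prop] poly_univI

theorem poly_rowB {q l v p b : α → ℕ} (hx : Poly x) (hq : Poly q) (hl : Poly l) (hv : Poly v)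
    (hp : Poly p) (hb : Poly b) :
    Poly (fun a => rowB (x a) (q a) (l a) (v a) (p a) (b a)) := by
  unfold rowB
  fun_prop

theorem poly_inRow {q l p y : α → ℕ} (hx : Poly x) (hq : Poly q) (hl : Poly l)
    (hp : Poly p) (hy : Poly y) : Poly (fun a => inRow (x a) (q a) (l a) (p a) (y a)) := by
  unfold inRow
  fun_prop

attribute [fun_prop] poly_rowB poly_inRow

theorem poly_lastB {S : α → List ℕ} {q l p : α → ℕ} (hx : Poly x) (hS : Poly S) (hq : Poly q)
    (hl : Poly l) (hp : Poly p) : Poly (fun a => lastB (x a) (S a) (q a) (l a) (p a)) := by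
  unfold lastB
  fun_prop

theorem poly_splitB {Q : α → List (ℕ × ℕ × ℕ × ℕ)} {S : α → List ℕ} {q l p b v p' : α → ℕ}
    (hx : Poly x) (hQ : Poly Q) (hS : Poly S) (hq : Poly q) (hl : Poly l) (hp : Poly p)
    (hb : Poly b) (hv : Poly v) (hp' : Poly p') :
    Poly (fun a => splitB (x a) (Q a) (S a) (q a) (l a) (p a) (b a) (v a) (p' a)) := by
  unfold splitB
  fun_prop

attribute [fun_prop] poly_lastB poly_splitB

theorem poly_stepB {Q : α → List (ℕ × ℕ × ℕ × ℕ)} {S : α → List ℕ} {v p b : α → ℕ}
    (hx : Poly x) (hQ : Poly Q) (hS : Poly S) (hv : Poly v) (hp : Poly p) (hb : Poly b) :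
    Poly (fun a => stepB (x a) (Q a) (S a) (v a) (p a) (b a)) := by
  unfold stepB
  fun_prop

attribute [fun_prop] poly_stepB

theorem poly_roundI {Q : α → List (ℕ × ℕ × ℕ × ℕ)} (hx : Poly x) (hQ : Poly Q) :
    Poly (fun a => roundI (x a) (Q a)) := by
  unfold roundI
  fun_prop

attribute [fun_prop] poly_roundI

theorem poly_tabI (hx : Poly x) : Poly (fun a => tabI (x a)) := by
  obtain ⟨q, hq⟩ := (poly_univI hx).sz_le
  unfold tabI
  refine Poly.iterLen (l := fun a => (x a).1) (s := fun _ => [])
    (F := fun a Q => roundI (x a) Q) (by fun_prop) (by fun_prop) (by fun_prop)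
    (q + Polynomial.C 1) ?_
  intro a k _
  rw [Polynomial.eval_add, Polynomial.eval_C]
  cases k with
  | zero => simp
  | succ k =>
    rw [Function.iterate_succ', Function.comp_apply]
    exact ((sz_filter_le' (univI (x a)) _).trans (hq a)).trans (Nat.le_add_right _ _)

attribute [fun_prop] poly_tabI

theorem poly_validB (hx : Poly x) : Poly (fun a => validB (x a)) := by
  unfold validB
  fun_prop

theorem poly_reachI (hx : Poly x) : Poly (fun a => reachI (x a)) :=
  poly_reachL' (R := fun a => adjI (x a)) (by fun_prop) (by fun_prop) (by fun_prop)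

attribute [fun_prop] poly_reachI

theorem poly_treeB (hx : Poly x) : Poly (fun a => treeB (x a)) := by
  unfold treeB
  fun_prop

attribute [fun_prop] poly_validB poly_treeB

theorem poly_algB : Poly algB := by
  unfold algB
  fun_prop

end

theorem validB_iff {x : Inp} : validB x = true ↔
    x.1 = List.range x.1.length ∧ ∀ e ∈ x.2, e.1 < x.1.length ∧ e.2 < x.1.length ∧ e.1 ≠ e.2 := by
  simp only [validB, Bool.and_eq_true, decide_eq_true_eq, List.all_eq_true, Bool.not_eq_true',
    decide_eq_false_iff_not, and_assoc]

theorem isAdj_of_valid {x : Inp}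
    (h : ∀ e ∈ x.2, e.1 < x.1.length ∧ e.2 < x.1.length ∧ e.1 ≠ e.2) :
    IsAdj x.1.length (adjI x) := by
  refine ⟨fun i j hij => ?_, fun i => ?_, fun i j hij => ?_⟩
  · simp only [adjI, Bool.or_eq_true, decide_eq_true_eq] at hij ⊢
    exact hij.symm
  · simp only [adjI, Bool.or_self, decide_eq_false_iff_not]
    intro hi
    exact (h _ hi).2.2 rfl
  · simp only [adjI, Bool.or_eq_true, decide_eq_true_eq] at hij
    rcases hij with h' | h'
    · exact (h _ h').1
    · exact (h _ h').2.1

theorem treeB_iff {x : Inp} : treeB x = true ↔ TreeCrit x.1.length (adjI x) := by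
  simp only [treeB, TreeCrit, Bridges, Bool.and_eq_true, decide_eq_true_eq, List.all_eq_true,
    List.mem_range, Bool.or_eq_true, Bool.not_eq_true', decide_eq_false_iff_not, and_assoc]
  simp only [cmpI, reachI]
  refine and_congr_right fun _ => and_congr_right fun _ => forall₂_congr fun y _ =>
    forall₂_congr fun z _ => ?_
  constructor
  · rintro (h | h) h'
    · rw [h] at h'; exact absurd h' (by simp)
    · exact h
  · intro h
    rcases hb : adjI x y z with _ | _
    · exact Or.inl rfl
    · exact Or.inr (h hb)

/-- **Correctness** of the algorithm. -/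
theorem algB_iff (x : Inp) : PathLikeProblem x ↔ algB x = true := by
  have hfin : ∀ _ : IsAdj x.1.length (adjI x),
      ((List.range x.1.length).any fun p => stepB x (tabI x) (List.range x.1.length) p p 0) = true ↔
        ∃ p < x.1.length,
          Good x.1.length (adjI x) (x.1.length + 1) (List.range x.1.length) p p 0 := by
    intro hA
    simp only [List.any_eq_true, List.mem_range]
    refine exists_congr fun p => and_congr_right fun _ => ?_
    unfold tabI
    rw [final_iff hA]
  have halg : algB x = true ↔ (x.1 = List.range x.1.length ∧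
      ∀ e ∈ x.2, e.1 < x.1.length ∧ e.2 < x.1.length ∧ e.1 ≠ e.2) ∧
      TreeCrit x.1.length (adjI x) ∧ ∃ p < x.1.length,
        Good x.1.length (adjI x) (x.1.length + 1) (List.range x.1.length) p p 0 := by
    unfold algB
    rw [Bool.and_eq_true, Bool.and_eq_true, validB_iff, treeB_iff, and_assoc]
    refine and_congr_right fun h => and_congr_right fun _ => hfin (isAdj_of_valid h.2)
  rw [halg]
  constructor
  · rintro ⟨n, T, ⟨h1, h2, h3⟩, hT⟩
    have hlen : x.1.length = n := by rw [h1, List.length_range]
    rw [hlen]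
    have hval : ∀ e ∈ x.2, e.1 < x.1.length ∧ e.2 < x.1.length ∧ e.1 ≠ e.2 := by
      intro e he
      rw [hlen]
      refine ⟨(h2 e he).1, (h2 e he).2, fun heq => ?_⟩
      have h4 := (h3 ⟨e.1, (h2 e he).1⟩ ⟨e.1, (h2 e he).1⟩).2 (Or.inl (by
        have : e = (e.1, e.1) := Prod.ext rfl heq.symm
        rw [← this]; exact he))
      exact T.irrefl h4
    have hA := isAdj_of_valid hval
    rw [hlen] at hA hval
    have hadj : ∀ i j : Fin n, T.Adj i j ↔ adjI x i j = true := by
      intro i j
      rw [h3]
      simp [adjI]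
    exact ⟨⟨h1, hval⟩, (isPathLike_iff_good hA hadj (Nat.le_succ n)).1 hT⟩
  · rintro ⟨⟨h1, h2⟩, h3⟩
    have hA := isAdj_of_valid h2
    let T : SimpleGraph (Fin x.1.length) :=
      { Adj := fun i j => adjI x i j = true
        symm := ⟨fun i j h => hA.symm _ _ h⟩
        loopless := ⟨fun i h => by rw [hA.irrefl] at h; exact absurd h (by simp)⟩ }
    refine ⟨x.1.length, T, ⟨h1, fun e he => ⟨(h2 e he).1, (h2 e he).2.1⟩, fun i j => ?_⟩, ?_⟩
    · change adjI x i j = true ↔ _
      simp [adjI]
    · exact (isPathLike_iff_good hA (fun i j => Iff.rfl) (Nat.le_succ _)).2 h3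

/-- **Main theorem.** -/
theorem inPP_pathLike : InPP PathLikeProblem := inPP_of poly_algB algB_iff

end Pool.Agent.K4H99.PathLike
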