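import Pool.Agent.K4H99.PathLike.Crit
import Pool.Agent.NPC.Dec
import Pool.Agent.NPC.Classes
import Pool.Agent.H601R2.PP

/-!
# The algorithm runs in polynomial time
-/

namespace Pool.Agent.K4H99.PathLike

open Pool.Agent.H685R2.VST Pool.Agent.NPC

/-- the inputs: vertex list and edge list -/
abbrev Inp := List ℕ × List (ℕ × ℕ)

/-- adjacency -/
def adjI (x : Inp) (i j : ℕ) : Bool := decide ((i, j) ∈ x.2) || decide ((j, i) ∈ x.2)

/-- `cmp` -/
def cmpI (x : Inp) (u v : ℕ) : List ℕ := cmp x.1.length (adjI x) u v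

/-- `nx` -/
def nxI (x : Inp) (q y : ℕ) : ℕ := nx x.1.length (adjI x) q y

/-- `rw` -/
def rwI (x : Inp) (q p i : ℕ) : ℕ := rw x.1.length (adjI x) q p i

/-- the universe of states -/
def univI (x : Inp) : List (ℕ × ℕ × ℕ × ℕ) :=
  (List.range x.1.length).flatMap fun u => (List.range x.1.length).flatMap fun v =>
    (List.range x.1.length).flatMap fun p => (List.range x.1.length).map fun a => (u, v, p, a)

/-- the test of `RowOK` -/
def rowB (x : Inp) (q l v p a : ℕ) : Bool :=
  decide (a ≤ l) && decide (rwI x q p a = v) &&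
  ((List.range x.1.length).all fun i => !(decide (i < l)) ||
    adjI x (rwI x q p i) (rwI x q p (i + 1))) &&
  ((List.range x.1.length).all fun i => (List.range x.1.length).all fun j =>
    !(decide (i ≤ l)) || !(decide (j ≤ l)) || !(decide (rwI x q p i = rwI x q p j)) ||
      decide (i = j))

/-- membership in the row -/
def inRow (x : Inp) (q l p y : ℕ) : Bool :=
  (List.range x.1.length).any fun i => decide (i ≤ l) && decide (rwI x q p i = y)

/-- the test of the last case -/
def lastB (x : Inp) (S : List ℕ) (q l p : ℕ) : Bool :=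
  (List.range x.1.length).all fun y => decide (decide (y ∈ S) = inRow x q l p y)

/-- the test of the splitting case -/
def splitB (x : Inp) (Q : List (ℕ × ℕ × ℕ × ℕ)) (S : List ℕ) (q l p b v' p' : ℕ) : Bool :=
  decide (1 ≤ b) && decide (b ≤ l) && adjI x (rwI x q p (l - b)) v' &&
  ((List.range x.1.length).all fun y => decide (decide (y ∈ S) =
    (decide (y ∈ cmpI x (rwI x q p (l - b)) v') || inRow x q l p y))) &&
  ((List.range x.1.length).all fun i => !(decide (i ≤ l)) ||
    !(decide (rwI x q p i ∈ cmpI x (rwI x q p (l - b)) v'))) &&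
  decide ((rwI x q p (l - b), v', p', b) ∈ Q)

/-- the test of `Step` -/
def stepB (x : Inp) (Q : List (ℕ × ℕ × ℕ × ℕ)) (S : List ℕ) (v p a : ℕ) : Bool :=
  (List.range x.1.length).any fun q => (List.range x.1.length).any fun l =>
    rowB x q l v p a && (lastB x S q l p ||
      (List.range x.1.length).any fun b => (List.range x.1.length).any fun v' =>
        (List.range x.1.length).any fun p' => splitB x Q S q l p b v' p')

/-- one round of the computation of the table -/
def roundI (x : Inp) (Q : List (ℕ × ℕ × ℕ × ℕ)) : List (ℕ × ℕ × ℕ × ℕ) :=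
  (univI x).filter fun s => stepB x Q (cmpI x s.1 s.2.1) s.2.1 s.2.2.1 s.2.2.2

/-- the table -/
def tabI (x : Inp) : List (ℕ × ℕ × ℕ × ℕ) := (roundI x)^[x.1.length] []

/-- the test of the input format -/
def validB (x : Inp) : Bool :=
  decide (x.1 = List.range x.1.length) &&
    x.2.all fun e => decide (e.1 < x.1.length) && decide (e.2 < x.1.length) && !(decide (e.1 = e.2))

/-- the vertices which are reachable from `0` -/
def reachI (x : Inp) : List ℕ := reachL (adjI x) (List.range x.1.length) 0

/-- the test for trees -/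
def treeB (x : Inp) : Bool :=
  decide (0 < x.1.length) &&
  ((List.range x.1.length).all fun y => decide (y ∈ reachI x)) &&
  ((List.range x.1.length).all fun y => (List.range x.1.length).all fun z =>
    !(adjI x y z) || !(decide (y ∈ cmpI x y z)))

/-- the whole algorithm -/
def algB (x : Inp) : Bool :=
  validB x && treeB x && (List.range x.1.length).any fun p =>
    stepB x (tabI x) (List.range x.1.length) p p 0

/-! ### Correctness of the tests -/

variable {x : Inp}

theorem mem_univI {u v p a : ℕ} : (u, v, p, a) ∈ univI x ↔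
    u < x.1.length ∧ v < x.1.length ∧ p < x.1.length ∧ a < x.1.length := by
  simp [univI]

theorem rowB_iff {q l v p a : ℕ} : rowB x q l v p a = true ↔
    RowOK x.1.length (adjI x) q l v p a := by
  simp only [rowB, RowOK, Bool.and_eq_true, decide_eq_true_eq, List.all_eq_true,
    List.mem_range, Bool.or_eq_true, Bool.not_eq_true', decide_eq_false_iff_not]
  simp only [rwI]
  constructor
  · rintro ⟨⟨⟨h1, h2⟩, h3⟩, h4⟩
    refine ⟨h1, h2, fun i hi hi' => (h3 i hi).resolve_left (by omega), fun i hi j hj h5 h6 h7 => ?_⟩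
    rcases h4 i hi j hj with ((h | h) | h) | h
    · exact absurd h5 h
    · exact absurd h6 h
    · exact absurd h7 h
    · exact h
  · rintro ⟨h1, h2, h3, h4⟩
    refine ⟨⟨⟨h1, h2⟩, fun i hi => ?_⟩, fun i hi j hj => ?_⟩
    · by_cases h : i < l
      · exact Or.inr (h3 i hi h)
      · exact Or.inl h
    · by_cases h5 : i ≤ l
      · by_cases h6 : j ≤ l
        · by_cases h7 : rw x.1.length (adjI x) q p i = rw x.1.length (adjI x) q p j
          · exact Or.inr (h4 i hi j hj h5 h6 h7)
          · exact Or.inl (Or.inr h7)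
        · exact Or.inl (Or.inl (Or.inr h6))
      · exact Or.inl (Or.inl (Or.inl h5))

theorem inRow_iff {q l p y : ℕ} : inRow x q l p y = true ↔
    ∃ i < x.1.length, i ≤ l ∧ rw x.1.length (adjI x) q p i = y := by
  simp only [inRow, List.any_eq_true, Bool.and_eq_true, decide_eq_true_eq, List.mem_range]
  rfl

theorem lastB_iff {S : List ℕ} {q l p : ℕ} : lastB x S q l p = true ↔
    ∀ y < x.1.length, y ∈ S ↔ ∃ i < x.1.length, i ≤ l ∧ rw x.1.length (adjI x) q p i = y := by
  simp only [lastB, List.all_eq_true, List.mem_range, decide_eq_true_eq]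
  refine forall₂_congr fun y _ => ?_
  rw [Bool.eq_iff_iff, decide_eq_true_eq, inRow_iff]

theorem splitB_iff {Q : List (ℕ × ℕ × ℕ × ℕ)} {S : List ℕ} {q l p b v' p' : ℕ} :
    splitB x Q S q l p b v' p' = true ↔
      1 ≤ b ∧ b ≤ l ∧ adjI x (rw x.1.length (adjI x) q p (l - b)) v' = true ∧
        (∀ y < x.1.length, y ∈ S ↔
          y ∈ cmp x.1.length (adjI x) (rw x.1.length (adjI x) q p (l - b)) v' ∨
          ∃ i < x.1.length, i ≤ l ∧ rw x.1.length (adjI x) q p i = y) ∧
        (∀ i < x.1.length, i ≤ l → rw x.1.length (adjI x) q p i ∉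
          cmp x.1.length (adjI x) (rw x.1.length (adjI x) q p (l - b)) v') ∧
        (rw x.1.length (adjI x) q p (l - b), v', p', b) ∈ Q := by
  simp only [splitB, Bool.and_eq_true, decide_eq_true_eq, List.all_eq_true, List.mem_range,
    Bool.or_eq_true, Bool.not_eq_true', decide_eq_false_iff_not, and_assoc, ← imp_iff_not_or]
  refine and_congr_right fun _ => and_congr_right fun _ => and_congr_right fun _ =>
    and_congr_left fun _ => forall₂_congr fun y _ => ?_
  rw [Bool.eq_iff_iff, decide_eq_true_eq, Bool.or_eq_true, decide_eq_true_eq, inRow_iff]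
  rfl

theorem stepB_iff {Q : List (ℕ × ℕ × ℕ × ℕ)} {S : List ℕ} {v p a : ℕ} :
    stepB x Q S v p a = true ↔
      Step x.1.length (adjI x) (fun u v p a => (u, v, p, a) ∈ Q) S v p a := by
  simp only [stepB, Step, List.any_eq_true, List.mem_range, Bool.and_eq_true, Bool.or_eq_true,
    rowB_iff, lastB_iff, splitB_iff]

theorem step_mono {n : ℕ} {A : ℕ → ℕ → Bool} {Q Q' : ℕ → ℕ → ℕ → ℕ → Prop} (hA : IsAdj n A)
    (h : ∀ u v p a, u < n → v < n → p < n → a < n → Q u v p a → Q' u v p a) {S : List ℕ}
    {v p a : ℕ} (hs : Step n A Q S v p a) : Step n A Q' S v p a := by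
  obtain ⟨q, hq, l, hl, hrow, hs⟩ := hs
  refine ⟨q, hq, l, hl, hrow, ?_⟩
  rcases hs with hs | ⟨b, hb, v', hv', p', hp', h1, h2, h3, h4, h5, h6⟩
  · exact Or.inl hs
  · exact Or.inr ⟨b, hb, v', hv', p', hp', h1, h2, h3, h4, h5, h _ _ _ _ (hA.lt _ _ h3) hv' hp' hb h6⟩

theorem mem_round_iterate (hA : IsAdj x.1.length (adjI x)) : ∀ (m u v p a : ℕ),
    (u, v, p, a) ∈ (roundI x)^[m] [] ↔
      u < x.1.length ∧ v < x.1.length ∧ p < x.1.length ∧ a < x.1.length ∧
        Good x.1.length (adjI x) m (cmp x.1.length (adjI x) u v) v p a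
  | 0, u, v, p, a => by simp [Good]
  | m + 1, u, v, p, a => by
    rw [Function.iterate_succ', Function.comp_apply]
    conv_lhs => rw [roundI]
    rw [List.mem_filter, mem_univI, stepB_iff]
    simp only [and_assoc]
    refine and_congr_right fun _ => and_congr_right fun _ => and_congr_right fun _ =>
      and_congr_right fun _ => ?_
    constructor
    · exact step_mono hA fun u v p a _ _ _ _ h => ((mem_round_iterate hA m u v p a).1 h).2.2.2.2
    · exact step_mono hA fun u v p a h1 h2 h3 h4 h =>
        (mem_round_iterate hA m u v p a).2 ⟨h1, h2, h3, h4, h⟩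

theorem final_iff (hA : IsAdj x.1.length (adjI x)) {m : ℕ} {S : List ℕ} {v p a : ℕ} :
    stepB x ((roundI x)^[m] []) S v p a = true ↔ Good x.1.length (adjI x) (m + 1) S v p a := by
  rw [stepB_iff]
  constructor
  · exact step_mono hA fun u v p a _ _ _ _ h => ((mem_round_iterate hA m u v p a).1 h).2.2.2.2
  · exact step_mono hA fun u v p a h1 h2 h3 h4 h =>
      (mem_round_iterate hA m u v p a).2 ⟨h1, h2, h3, h4, h⟩

end Pool.Agent.K4H99.PathLike
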