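import Pool.Agent.K4H99.PathLike.Chain

/-!
# From leg lengths to embeddings: the boustrophedon
-/

namespace Pool.Agent.K4H99.PathLike

/-- the number of transformed edges before the vertex `t` -/
def cnt (a : ℕ → ℕ) : ℕ → ℕ
  | 0 => 0
  | t + 1 => cnt a t + if a t = 0 then 0 else 1

/-- the first coordinate of the vertex `t` -/
def xco (a : ℕ → ℕ) : ℕ → ℤ
  | 0 => 0
  | t + 1 => xco a t + if a t = 0 then (-1) ^ cnt a t else 0

/-- the boustrophedon embedding -/
def snake (a : ℕ → ℕ) (t : ℕ) : ℤ × ℤ := (xco a t, (cnt a t : ℤ))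

variable {a : ℕ → ℕ}

theorem cnt_zero {t : ℕ} (h : a t = 0) : cnt a (t + 1) = cnt a t := by simp [cnt, h]

theorem cnt_pos {t : ℕ} (h : a t ≠ 0) : cnt a (t + 1) = cnt a t + 1 := by simp [cnt, h]

theorem snake_zero {t : ℕ} (h : a t = 0) : snake a (t + 1) - snake a t = ((-1) ^ cnt a t, 0) := by
  simp [snake, xco, cnt, h]

theorem snake_pos {t : ℕ} (h : a t ≠ 0) : snake a (t + 1) - snake a t = (0, 1) := by
  simp [snake, xco, cnt, h]

theorem row_run {t : ℕ} : ∀ c : ℕ, (∀ i, t ≤ i → i < t + c → a i = 0) →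
    cnt a (t + c) = cnt a t ∧ xco a (t + c) = xco a t + c * (-1) ^ cnt a t
  | 0, _ => by simp
  | c + 1, h => by
    obtain ⟨h1, h2⟩ := row_run c fun i hi hi' => h i hi (by omega)
    have h3 : a (t + c) = 0 := h _ (by omega) (by omega)
    rw [← add_assoc]
    refine ⟨by rw [cnt_zero h3, h1], ?_⟩
    rw [xco, if_pos h3, h1, h2]
    push_cast
    ring

theorem cnt_mono {s t : ℕ} (h : s ≤ t) : cnt a s ≤ cnt a t := by
  induction h with
  | refl => exact le_rfl
  | step _ ih => exact ih.trans (by rw [cnt]; omega)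

theorem zero_of_cnt_eq {s t i : ℕ} (h : cnt a s = cnt a t) (hi : s ≤ i) (hi' : i < t) :
    a i = 0 := by
  by_contra hc
  have h1 := cnt_mono (a := a) hi
  have h2 := cnt_mono (a := a) (Nat.succ_le_of_lt hi')
  rw [Nat.succ_eq_add_one, cnt_pos hc] at h2
  omega

theorem neg_one_pow_sq (c : ℕ) : ((-1 : ℤ) ^ c) ^ 2 = 1 := by
  rw [← pow_mul, mul_comm, pow_mul]
  simp

theorem neg_one_pow_ne (c : ℕ) : ((-1 : ℤ) ^ c) ≠ 0 := pow_ne_zero _ (by norm_num)

theorem snake_inj_aux {s t : ℕ} (hst : s < t) (h : snake a s = snake a t) : False := by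
  simp only [snake, Prod.mk.injEq, Nat.cast_inj] at h
  obtain ⟨h1, h2⟩ := h
  obtain ⟨c, rfl⟩ := Nat.exists_eq_add_of_lt hst
  obtain ⟨-, h3⟩ := row_run (a := a) (t := s) (c + 1) fun i hi hi' => zero_of_cnt_eq h2 hi hi'
  rw [← add_assoc, ← h1] at h3
  have h4 : ((c + 1 : ℕ) : ℤ) * (-1) ^ cnt a s = 0 := by linarith
  rcases mul_eq_zero.1 h4 with h5 | h5
  · have : c + 1 = 0 := by exact_mod_cast h5
    omega
  · exact neg_one_pow_ne _ h5

theorem snake_embedding (n : ℕ) : IsEmbedding n (snake a) := by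
  refine ⟨fun i _ j _ h => ?_, fun i _ => ?_⟩
  · rcases lt_trichotomy i j with hlt | heq | hgt
    · exact (snake_inj_aux hlt h).elim
    · exact heq
    · exact (snake_inj_aux hgt h.symm).elim
  · unfold GridAdj
    have h1 : (snake a i).1 - (snake a (i + 1)).1 = -(snake a (i + 1) - snake a i).1 := by
      simp
    have h2 : (snake a i).2 - (snake a (i + 1)).2 = -(snake a (i + 1) - snake a i).2 := by
      simp
    rw [h1, h2]
    by_cases h : a i = 0
    · rw [snake_zero h]
      simp [neg_one_pow_sq]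
    · rw [snake_pos h]; simp

theorem straight_of_zero {i : ℕ} (h0 : 0 < i) (h : a i = 0) (h' : a (i - 1) = 0) :
    StraightAt (snake a) i := by
  obtain ⟨m, rfl⟩ : ∃ m, i = m + 1 := ⟨i - 1, by omega⟩
  rw [Nat.add_sub_cancel] at h'
  unfold StraightAt
  rw [Nat.add_sub_cancel, snake_zero h, snake_zero h', cnt_zero h']

theorem turn_of_pos {i : ℕ} (h0 : 0 < i) (h : a i ≠ 0) (h' : a (i - 1) = 0) :
    ¬ StraightAt (snake a) i := by
  obtain ⟨m, rfl⟩ : ∃ m, i = m + 1 := ⟨i - 1, by omega⟩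
  rw [Nat.add_sub_cancel] at h'
  unfold StraightAt
  rw [Nat.add_sub_cancel, snake_pos h, snake_zero h']
  simp

theorem turn_of_pos' {i : ℕ} (h0 : 0 < i) (h : a i = 0) (h' : a (i - 1) ≠ 0) :
    ¬ StraightAt (snake a) i := by
  obtain ⟨m, rfl⟩ : ∃ m, i = m + 1 := ⟨i - 1, by omega⟩
  rw [Nat.add_sub_cancel] at h'
  unfold StraightAt
  rw [Nat.add_sub_cancel, snake_zero h, snake_pos h']
  simp

variable {n : ℕ}

theorem Valid.zero_near (ha : Valid n a) {j i : ℕ} (hj : j + 1 < n) (haj : 0 < a j) (hij : i ≠ j)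
    (h1 : j ≤ i + a j) (h2 : i ≤ j + a j) : a i = 0 := by
  by_contra hc
  rcases Nat.lt_or_ge i j with h | h
  · have := ha.2 i j h hj (Nat.pos_of_ne_zero hc) haj
    omega
  · have hjn := ha.1 j hj
    have := ha.2 j i (by omega) (by omega) haj (Nat.pos_of_ne_zero hc)
    omega

theorem isElementary_snake (ha : Valid n a) {j : ℕ} (hj : j + 1 < n) (haj : 0 < a j) :
    IsElementary n (snake a) (j, j - a j, j + 1 + a j) := by
  classical
  obtain ⟨hv1, hv2⟩ := ha.1 j hj
  have hj0 : 0 < j := by omega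
  have hprev : a (j - 1) = 0 := ha.zero_near hj haj (by omega) (by omega) (by omega)
  have hnext : a (j + 1) = 0 := ha.zero_near hj haj (by omega) (by omega) (by omega)
  -- the left segment
  have hexs : ∃ s, ∀ i, s ≤ i → i < j → a i = 0 := ⟨j, fun i h1 h2 => by omega⟩
  obtain ⟨s, hs1, hs2⟩ : ∃ s, (∀ i, s ≤ i → i < j → a i = 0) ∧
      (s ≠ 0 → ¬ ∀ i, s - 1 ≤ i → i < j → a i = 0) := by
    refine ⟨Nat.find hexs, Nat.find_spec hexs, fun h => Nat.find_min hexs (by omega)⟩
  have hsle : s ≤ j - a j := by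
    by_contra hc
    refine hs2 (by omega) fun i hi hi' => ?_
    rcases Nat.lt_or_ge i s with h | h
    · exact ha.zero_near hj haj (by omega) (by omega) (by omega)
    · exact hs1 i h hi'
  have hs3 : s ≠ 0 → a (s - 1) ≠ 0 := by
    intro hs h
    refine hs2 hs fun i hi hi' => ?_
    rcases Nat.lt_or_ge i s with h' | h'
    · have : i = s - 1 := by omega
      rw [this]; exact h
    · exact hs1 i h' hi'
  -- the right segment
  obtain ⟨t, htn, ht1, ht2⟩ : ∃ t, t < n ∧ (∀ i, j + 1 ≤ i → i < t → a i = 0) ∧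
      (t + 1 ≠ n → ¬ ∀ i, j + 1 ≤ i → i < t + 1 → a i = 0) := by
    refine ⟨Nat.findGreatest (fun t => ∀ i, j + 1 ≤ i → i < t → a i = 0) (n - 1), ?_, ?_, ?_⟩
    · have := Nat.findGreatest_le (P := fun t => ∀ i, j + 1 ≤ i → i < t → a i = 0) (n - 1)
      omega
    · exact Nat.findGreatest_spec (P := fun t => ∀ i, j + 1 ≤ i → i < t → a i = 0)
        (m := 0) (Nat.zero_le _) (fun i _ h => by omega)
    · intro h
      have h1 := Nat.findGreatest_le (P := fun t => ∀ i, j + 1 ≤ i → i < t → a i = 0) (n - 1)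
      exact Nat.findGreatest_is_greatest (P := fun t => ∀ i, j + 1 ≤ i → i < t → a i = 0)
        (n := n - 1) (Nat.lt_succ_self _) (by omega)
  have htle : j + 1 + a j ≤ t := by
    by_contra hc
    refine ht2 (by omega) fun i hi hi' => ?_
    exact ha.zero_near hj haj (by omega) (by omega) (by omega)
  have ht3 : t + 1 ≠ n → a t ≠ 0 := by
    intro ht h
    refine ht2 ht fun i hi hi' => ?_
    rcases Nat.lt_or_ge i t with h' | h'
    · exact ht1 i hi h'
    · have : i = t := by omega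
      rw [this]; exact h
  have hturn1 : ¬ StraightAt (snake a) j := turn_of_pos hj0 (by omega) hprev
  have hturn2 : ¬ StraightAt (snake a) (j + 1) :=
    turn_of_pos' (by omega) hnext (by rw [Nat.add_sub_cancel]; omega)
  refine ⟨s, t, ⟨by simp only; omega, by simp only; omega, ?_, ?_, fun _ => hturn1⟩,
    ⟨by simp only; omega, hj, fun i h1 h2 => by simp only at h1 h2; omega, fun _ => hturn1,
      fun _ => hturn2⟩,
    ⟨by simp only; omega, htn, ?_, fun _ => hturn2, ?_⟩, ⟨hsle, by simp only; omega⟩,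
    ⟨by simp only; omega, htle⟩, ?_, by simp only; omega⟩
  · intro i h1 h2
    exact straight_of_zero (by omega) (hs1 i (by omega) h2) (hs1 _ (by omega) (by omega))
  · intro hs
    exact turn_of_pos' (by omega) (hs1 s le_rfl (by omega)) (hs3 hs)
  · intro i h1 h2
    simp only at h1
    exact straight_of_zero (by omega) (ht1 i (by omega) h2) (ht1 _ (by omega) (by omega))
  · intro ht
    exact turn_of_pos (by omega) (ht3 ht) (ht1 _ (by omega) (by omega))
  · -- the two vertices are adjacent in the grid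
    obtain ⟨e1, e2⟩ := row_run (a := a) (t := j - a j) (a j) fun i hi hi' =>
      ha.zero_near hj haj (by omega) (by omega) (by omega)
    obtain ⟨e3, e4⟩ := row_run (a := a) (t := j + 1) (a j) fun i hi hi' =>
      ha.zero_near hj haj (by omega) (by omega) (by omega)
    have e5 : j - a j + a j = j := by omega
    rw [e5] at e1 e2
    have e6 : cnt a (j + 1) = cnt a j + 1 := cnt_pos (by omega)
    have e7 : xco a (j + 1) = xco a j := by rw [xco, if_neg (by omega), add_zero]
    rw [e6] at e3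
    rw [e6, e7, e2, ← e1, pow_succ] at e4
    simp only [GridAdj, snake]
    rw [e4, e3, ← e1]
    push_cast
    ring

/-- **From leg lengths to embeddings.** -/
theorem isPathLike_of_valid {T : SimpleGraph (Fin n)} (hT : T.IsTree) (ha : Valid n a)
    (e : T ≃g Gam n a) : IsPathLike T := by
  let 𝒯 : Set (ℕ × ℕ × ℕ) := {τ | ∃ j, j + 1 < n ∧ 0 < a j ∧ τ = (j, j - a j, j + 1 + a j)}
  have hEq : Gam n a = transformed n 𝒯 := by
    ext x y
    rw [transformed_adj, gam_adj]
    constructor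
    · rintro ⟨j, hj, h⟩
      have hv := ha.1 j hj
      refine ⟨?_, by rintro rfl; omega⟩
      rcases Nat.eq_zero_or_pos (a j) with h0 | h0
      · left
        rw [h0] at h
        refine ⟨?_, ?_⟩
        · rcases h with ⟨h1, h2⟩ | ⟨h1, h2⟩
          · exact ⟨x, y, by omega, rfl⟩
          · exact ⟨y, x, by omega, Sym2.eq_swap⟩
        · rintro ⟨τ, ⟨j', hj', haj', rfl⟩, x', y', hx', hy', he⟩
          simp only [Sym2.eq_iff] at he hx' hy'
          have : j' = j := by
            rcases he with ⟨h3, h4⟩ | ⟨h3, h4⟩ <;> rw [h3, h4] at h <;> omega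
          rw [this] at haj'
          omega
      · right
        rcases h with ⟨h1, h2⟩ | ⟨h1, h2⟩
        · exact ⟨_, ⟨j, hj, h0, rfl⟩, x, y, h1, h2, rfl⟩
        · exact ⟨_, ⟨j, hj, h0, rfl⟩, y, x, h1, h2, Sym2.eq_swap⟩
    · rintro ⟨⟨⟨x', y', hxy, he⟩, hnd⟩ | ⟨τ, ⟨j, hj, haj, rfl⟩, x', y', hx', hy', he⟩, hne⟩
      · have hjn : (x' : ℕ) + 1 < n := by omega
        have h0 : a x' = 0 := by
          by_contra hc
          exact hnd ⟨_, ⟨x', hjn, Nat.pos_of_ne_zero hc, rfl⟩, x', y', rfl, hxy.symm, he⟩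
        refine ⟨x', hjn, ?_⟩
        rw [h0]
        simp only [Sym2.eq_iff] at he
        rcases he with ⟨h3, h4⟩ | ⟨h3, h4⟩
        · left; rw [h3, h4]; omega
        · right; rw [h3, h4]; omega
      · refine ⟨j, hj, ?_⟩
        simp only [Sym2.eq_iff] at he hx' hy'
        rcases he with ⟨h3, h4⟩ | ⟨h3, h4⟩
        · left; rw [h3, h4]; exact ⟨hx', hy'⟩
        · right; rw [h3, h4]; exact ⟨hx', hy'⟩
  refine ⟨hT, snake a, 𝒯, snake_embedding n, ?_, ⟨hEq ▸ e⟩⟩
  rintro τ ⟨j, hj, haj, rfl⟩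
  exact isElementary_snake ha hj haj

/-- **Characterisation** of path-like trees by leg lengths. -/
theorem isPathLike_iff {T : SimpleGraph (Fin n)} :
    IsPathLike T ↔ T.IsTree ∧ ∃ a, Valid n a ∧ Nonempty (T ≃g Gam n a) := by
  constructor
  · rintro ⟨hT, f, 𝒯, hf, h𝒯, ⟨e⟩⟩
    exact ⟨hT, exists_valid hT hf h𝒯 e⟩
  · rintro ⟨hT, a, ha, ⟨e⟩⟩
    exact isPathLike_of_valid hT ha e

end Pool.Agent.K4H99.PathLike
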